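import Mathlib

/-! Piece Y1 of the project EL (helper44): second moment of a sum of functions `σ ↦ θ (σ • x)`
which are pairwise equal or orthogonal. -/

set_option autoImplicit false

namespace Pool.Agent.J4.H5.EL

open Module

theorem mean_bound {G Ω κ : Type*} [Group G] [MulAction G Ω] (θ : Ω → ℝ)
    (hθ : ∀ x, θ x = 1 ∨ θ x = -1) (S : Finset κ) (x : κ → Ω)
    (hfin : ∀ k ∈ S, (MulAction.orbit G (x k)).Finite) (same : κ → κ → Prop) [DecidableRel same]
    (hsame : ∀ k ∈ S, ∀ l ∈ S, same k l → ∀ σ : G, θ (σ • x k) = θ (σ • x l))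
    (hsep : ∀ k ∈ S, ∀ l ∈ S, ¬ same k l → ∃ τ : G, (∀ σ : G, θ (σ • τ • x k) = θ (σ • x k)) ∧
      ∀ σ : G, θ (σ • τ • x l) = - θ (σ • x l)) (m : ℝ)
    (hm : ∀ σ : G, |∑ k ∈ S, θ (σ • x k)| ≤ m) :
    (((S ×ˢ S).filter fun kl => same kl.1 kl.2).card : ℝ) ≤ m ^ 2 := by
  classical
  -- the finite invariant set
  let Y : SubMulAction G Ω :=
    { carrier := {y | ∃ k ∈ S, y ∈ MulAction.orbit G (x k)}
      smul_mem' := by
        rintro g y ⟨k, hk, hy⟩
        refine ⟨k, hk, ?_⟩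
        exact (MulAction.mem_orbit_of_mem_orbit g hy) }
  have hmemY : ∀ k ∈ S, x k ∈ Y := fun k hk => ⟨k, hk, MulAction.mem_orbit_self _⟩
  have hYfin : (Y : Set Ω).Finite := by
    have : (Y : Set Ω) = ⋃ k ∈ S, MulAction.orbit G (x k) := by
      ext y
      simp only [Set.mem_iUnion]
      constructor
      · rintro ⟨k, hk, hy⟩
        exact ⟨k, hk, hy⟩
      · rintro ⟨k, hk, hy⟩
        exact ⟨k, hk, hy⟩
    rw [this]
    exact Set.Finite.biUnion S.finite_toSet (fun k hk => hfin k hk)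
  haveI : Finite Y := hYfin.to_subtype
  let P : G →* Equiv.Perm Y := MulAction.toPermHom G Y
  let Q := P.range
  haveI : Finite (Equiv.Perm Y) := inferInstance
  haveI : Fintype Q := Fintype.ofFinite Q
  have hrep : ∀ q : Q, ∃ g : G, P g = q := fun q => q.2
  choose rep hrep using hrep
  let F : κ → Q → ℝ := fun k q => θ (rep q • x k)
  have hF : ∀ k ∈ S, ∀ (q : Q) (g : G), P g = q → F k q = θ (g • x k) := by
    intro k hk q g hg
    have e : P (rep q) = P g := (hrep q).trans hg.symm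
    have e1 : P (rep q) ⟨x k, hmemY k hk⟩ = P g ⟨x k, hmemY k hk⟩ := by rw [e]
    have e2 := congrArg (fun y : Y => (y : Ω)) e1
    show θ (rep q • x k) = θ (g • x k)
    exact congrArg θ e2
  have hcard : (0 : ℝ) < Fintype.card Q := by exact_mod_cast Fintype.card_pos
  have horth : ∀ k ∈ S, ∀ l ∈ S, ¬ same k l → ∑ q : Q, F k q * F l q = 0 := by
    intro k hk l hl hkl
    obtain ⟨τ, h1, h2⟩ := hsep k hk l hl hkl
    let q0 : Q := ⟨P τ, ⟨τ, rfl⟩⟩
    have hinv : ∑ q : Q, F k q * F l q = ∑ q : Q, F k (q * q0) * F l (q * q0) :=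
      (Equiv.sum_comp (Equiv.mulRight q0) (fun q : Q => F k q * F l q)).symm
    have hneg : ∀ q : Q, F k (q * q0) * F l (q * q0) = - (F k q * F l q) := by
      intro q
      have e : P (rep q * τ) = ((q * q0 : Q) : Equiv.Perm Y) := by
        rw [map_mul, hrep q]
        rfl
      rw [hF k hk _ _ e, hF l hl _ _ e, mul_smul, mul_smul, h1, h2]
      ring
    rw [Finset.sum_congr rfl (fun q _ => hneg q), Finset.sum_neg_distrib] at hinv
    linarith
  have hdiag : ∀ k ∈ S, ∀ l ∈ S, same k l → ∑ q : Q, F k q * F l q = Fintype.card Q := by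
    intro k hk l hl hkl
    have : ∀ q : Q, F k q * F l q = 1 := by
      intro q
      have e : F k q = F l q := hsame k hk l hl hkl (rep q)
      rw [e]
      rcases hθ (rep q • x l) with h1 | h1
      · show θ (rep q • x l) * θ (rep q • x l) = 1
        rw [h1]; norm_num
      · show θ (rep q • x l) * θ (rep q • x l) = 1
        rw [h1]; norm_num
    rw [Finset.sum_congr rfl (fun q _ => this q)]
    simp
  have hsq : ∑ q : Q, (∑ k ∈ S, F k q) ^ 2
      = (Fintype.card Q : ℝ) * (((S ×ˢ S).filter fun kl => same kl.1 kl.2).card : ℝ) := by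
    have e1 : ∀ q : Q, (∑ k ∈ S, F k q) ^ 2 = ∑ kl ∈ S ×ˢ S, F kl.1 q * F kl.2 q := by
      intro q
      rw [sq, Finset.sum_mul_sum, Finset.sum_product]
    rw [Finset.sum_congr rfl (fun q _ => e1 q), Finset.sum_comm]
    have e2 : ∀ kl ∈ S ×ˢ S, ∑ q : Q, F kl.1 q * F kl.2 q
        = if same kl.1 kl.2 then (Fintype.card Q : ℝ) else 0 := by
      intro kl hkl
      rw [Finset.mem_product] at hkl
      split_ifs with h
      · exact hdiag kl.1 hkl.1 kl.2 hkl.2 h
      · exact horth kl.1 hkl.1 kl.2 hkl.2 h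
    rw [Finset.sum_congr rfl e2, ← Finset.sum_filter, Finset.sum_const, nsmul_eq_mul, mul_comm]
  have hle : ∑ q : Q, (∑ k ∈ S, F k q) ^ 2 ≤ (Fintype.card Q : ℝ) * m ^ 2 := by
    have : ∀ q ∈ (Finset.univ : Finset Q), (∑ k ∈ S, F k q) ^ 2 ≤ m ^ 2 := by
      intro q _
      exact sq_le_sq' (abs_le.mp (hm (rep q))).1 (abs_le.mp (hm (rep q))).2
    calc _ ≤ ∑ _q : Q, m ^ 2 := Finset.sum_le_sum this
      _ = _ := by rw [Finset.sum_const, nsmul_eq_mul, Finset.card_univ]
  rw [hsq] at hle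
  exact le_of_mul_le_mul_left hle hcard

end Pool.Agent.J4.H5.EL
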