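import Mathlib

/-!
# Orthogonal sign functions are linearly independent
-/

set_option autoImplicit false

namespace Pool.Agent.J4.H5.EL

open Module

theorem card_le_of_sep {G Ω κ : Type*} [Group G] [MulAction G Ω] (θ : Ω → ℝ)
    (hθ : ∀ x, θ x = 1 ∨ θ x = -1) (T : Finset κ) (x : κ → Ω)
    (hfin : ∀ k ∈ T, (MulAction.orbit G (x k)).Finite)
    (hsep : ∀ k ∈ T, ∀ l ∈ T, k ≠ l → ∃ τ : G, (∀ σ : G, θ (σ • τ • x k) = θ (σ • x k)) ∧
      ∀ σ : G, θ (σ • τ • x l) = - θ (σ • x l))
    (W : Submodule ℝ (G → ℝ)) [Module.Finite ℝ W]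
    (h : ∀ k ∈ T, (fun σ : G => θ (σ • x k)) ∈ W) : T.card ≤ finrank ℝ W := by
  classical
  let Y : SubMulAction G Ω :=
    { carrier := {y | ∃ k ∈ T, y ∈ MulAction.orbit G (x k)}
      smul_mem' := by
        rintro g y ⟨k, hk, hy⟩
        refine ⟨k, hk, ?_⟩
        exact (MulAction.mem_orbit_of_mem_orbit g hy) }
  have hmemY : ∀ k ∈ T, x k ∈ Y := fun k hk => ⟨k, hk, MulAction.mem_orbit_self _⟩
  have hYfin : (Y : Set Ω).Finite := by
    have : (Y : Set Ω) = ⋃ k ∈ T, MulAction.orbit G (x k) := by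
      ext y
      simp only [Set.mem_iUnion]
      constructor
      · rintro ⟨k, hk, hy⟩
        exact ⟨k, hk, hy⟩
      · rintro ⟨k, hk, hy⟩
        exact ⟨k, hk, hy⟩
    rw [this]
    exact Set.Finite.biUnion T.finite_toSet (fun k hk => hfin k hk)
  haveI : Finite Y := hYfin.to_subtype
  let P : G →* Equiv.Perm Y := MulAction.toPermHom G Y
  let Q := P.range
  haveI : Finite (Equiv.Perm Y) := inferInstance
  haveI : Fintype Q := Fintype.ofFinite Q
  have hrep : ∀ q : Q, ∃ g : G, P g = q := fun q => q.2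
  choose rep hrep using hrep
  let F : κ → Q → ℝ := fun k q => θ (rep q • x k)
  have hF : ∀ k ∈ T, ∀ (q : Q) (g : G), P g = q → F k q = θ (g • x k) := by
    intro k hk q g hg
    have e : P (rep q) = P g := (hrep q).trans hg.symm
    have e1 : P (rep q) ⟨x k, hmemY k hk⟩ = P g ⟨x k, hmemY k hk⟩ := by rw [e]
    have e2 := congrArg (fun y : Y => (y : Ω)) e1
    show θ (rep q • x k) = θ (g • x k)
    exact congrArg θ e2
  have hcard : (0 : ℝ) < Fintype.card Q := by exact_mod_cast Fintype.card_pos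
  have horth : ∀ k ∈ T, ∀ l ∈ T, k ≠ l → ∑ q : Q, F k q * F l q = 0 := by
    intro k hk l hl hkl
    obtain ⟨τ, h1, h2⟩ := hsep k hk l hl hkl
    let q0 : Q := ⟨P τ, ⟨τ, rfl⟩⟩
    have hinv : ∑ q : Q, F k q * F l q = ∑ q : Q, F k (q * q0) * F l (q * q0) :=
      (Equiv.sum_comp (Equiv.mulRight q0) (fun q : Q => F k q * F l q)).symm
    have hneg : ∀ q : Q, F k (q * q0) * F l (q * q0) = - (F k q * F l q) := by
      intro q
      have e : P (rep q * τ) = ((q * q0 : Q) : Equiv.Perm Y) := by
        rw [map_mul, hrep q]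
        rfl
      rw [hF k hk _ _ e, hF l hl _ _ e, mul_smul, mul_smul, h1, h2]
      ring
    rw [Finset.sum_congr rfl (fun q _ => hneg q), Finset.sum_neg_distrib] at hinv
    linarith
  have hdiag : ∀ k, ∑ q : Q, F k q * F k q = Fintype.card Q := by
    intro k
    have : ∀ q : Q, F k q * F k q = 1 := by
      intro q
      rcases hθ (rep q • x k) with h1 | h1
      · show θ (rep q • x k) * θ (rep q • x k) = 1
        rw [h1]; norm_num
      · show θ (rep q • x k) * θ (rep q • x k) = 1
        rw [h1]; norm_num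
    rw [Finset.sum_congr rfl (fun q _ => this q)]
    simp
  have hlin : LinearIndependent ℝ fun k : T => (⟨fun σ : G => θ (σ • x k), h k k.2⟩ : W) := by
    rw [Fintype.linearIndependent_iff]
    intro c hc k
    have h1 : ∀ σ : G, ∑ l : T, c l * θ (σ • x l) = 0 := by
      intro σ
      have h2 := congrArg (fun f : W => (f : G → ℝ) σ) hc
      simpa [Finset.sum_apply] using h2
    have h3 : ∑ q : Q, (∑ l : T, c l * F l q) * F k q = 0 := by
      refine Finset.sum_eq_zero fun q _ => ?_
      have : ∑ l : T, c l * F l q = 0 := h1 (rep q)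
      rw [this, zero_mul]
    have h4 : ∑ q : Q, (∑ l : T, c l * F l q) * F k q = ∑ l : T, c l * ∑ q : Q, F l q * F k q := by
      simp_rw [Finset.sum_mul, Finset.mul_sum]
      rw [Finset.sum_comm]
      simp_rw [mul_assoc]
    have h5 : ∑ l : T, c l * ∑ q : Q, F l q * F k q = c k * Fintype.card Q := by
      rw [Finset.sum_eq_single k]
      · rw [hdiag]
      · intro l _ hl
        rw [horth l l.2 k k.2 (fun e => hl (Subtype.ext e)), mul_zero]
      · intro hk
        exact absurd (Finset.mem_univ _) hk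
    rw [h4, h5] at h3
    exact (mul_eq_zero.mp h3).resolve_right hcard.ne'
  have h6 := hlin.fintype_card_le_finrank
  rwa [Fintype.card_coe] at h6

end Pool.Agent.J4.H5.EL
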