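import Mathlib

/-!
# A summand of a sum of sign functions in a translation invariant space
-/

set_option autoImplicit false

namespace Pool.Agent.J4.H5.EL

open Module

theorem mem_of_sum {G Ω κ : Type*} [Group G] [MulAction G Ω] (θ : Ω → ℝ)
    (hθ : ∀ x, θ x = 1 ∨ θ x = -1) (S : Finset κ) (x : κ → Ω)
    (hfin : ∀ k ∈ S, (MulAction.orbit G (x k)).Finite) (same : κ → κ → Prop)
    (hsame : ∀ k ∈ S, ∀ l ∈ S, same k l → ∀ σ : G, θ (σ • x k) = θ (σ • x l))
    (hsep : ∀ k ∈ S, ∀ l ∈ S, ¬ same k l → ∃ τ : G, (∀ σ : G, θ (σ • τ • x k) = θ (σ • x k)) ∧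
      ∀ σ : G, θ (σ • τ • x l) = - θ (σ • x l))
    (W : Submodule ℝ (G → ℝ)) (hW : ∀ f ∈ W, ∀ τ : G, (fun σ => f (σ * τ)) ∈ W)
    (h : (fun σ : G => ∑ k ∈ S, θ (σ • x k)) ∈ W) (k : κ) (hk : k ∈ S) (hkk : same k k) :
    (fun σ : G => θ (σ • x k)) ∈ W := by
  classical
  -- the finite stable set
  let Y : SubMulAction G Ω :=
    { carrier := ⋃ l ∈ S, MulAction.orbit G (x l)
      smul_mem' := by
        intro g y hy
        simp only [Set.mem_iUnion] at hy ⊢
        obtain ⟨l, hl, hy⟩ := hy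
        exact ⟨l, hl, MulAction.mem_orbit_of_mem_orbit g hy⟩ }
  have hYfin : Finite Y := by
    have h1 : (⋃ l ∈ S, MulAction.orbit G (x l)).Finite := Set.Finite.biUnion S.finite_toSet hfin
    exact h1.to_subtype
  have hmem : ∀ l ∈ S, x l ∈ Y := fun l hl =>
    Set.mem_iUnion₂.mpr ⟨l, hl, MulAction.mem_orbit_self _⟩
  let φ : G →* Equiv.Perm Y := MulAction.toPermHom G Y
  have hφ : ∀ (g : G) (y : Y), ((φ g y : Y) : Ω) = g • (y : Ω) := fun g y => rfl
  -- the subgroup
  let H : Subgroup G :=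
    { carrier := {τ | ∀ σ : G, θ (σ • τ • x k) = θ (σ • x k)}
      mul_mem' := by
        intro a b ha hb σ
        have h1 := hb (σ * a)
        rw [mul_smul, mul_smul] at h1
        rw [mul_smul, h1]
        exact ha σ
      one_mem' := fun σ => by rw [one_smul]
      inv_mem' := by
        intro a ha σ
        have h1 := ha (σ * a⁻¹)
        rw [mul_smul, inv_smul_smul] at h1
        rw [h1, mul_smul] }
  let H' : Subgroup (Equiv.Perm Y) := H.map φ
  have hH'fin : Fintype H' := Fintype.ofFinite _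
  have hch : ∀ p : H', ∃ τ : G, τ ∈ H ∧ φ τ = (p : Equiv.Perm Y) := fun p => by
    obtain ⟨τ, h1, h2⟩ := p.2
    exact ⟨τ, h1, h2⟩
  choose τ hτH hτ using hch
  -- the sum over the translates
  have hF : (fun σ : G => ∑ p : H', ∑ l ∈ S, θ ((σ * τ p) • x l)) ∈ W := by
    have h1 : (∑ p : H', fun σ : G => ∑ l ∈ S, θ ((σ * τ p) • x l)) ∈ W :=
      W.sum_mem fun p _ => hW _ h (τ p)
    convert h1 using 1
    funext σ
    rw [Finset.sum_apply]
  -- the terms
  have hterm : ∀ l ∈ S, ∀ σ : G, ∑ p : H', θ ((σ * τ p) • x l) =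
      if same k l then (Fintype.card H' : ℝ) * θ (σ • x k) else 0 := by
    intro l hl σ
    by_cases hs : same k l
    · rw [if_pos hs]
      have h1 : ∀ p : H', θ ((σ * τ p) • x l) = θ (σ • x k) := by
        intro p
        rw [← hsame k hk l hl hs (σ * τ p), mul_smul]
        exact hτH p σ
      rw [Finset.sum_congr rfl fun p _ => h1 p, Finset.sum_const, Finset.card_univ, nsmul_eq_mul]
    · rw [if_neg hs]
      obtain ⟨τ0, h1, h2⟩ := hsep k hk l hl hs
      let t0 : H' := ⟨φ τ0, τ0, h1, rfl⟩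
      let y : Y := ⟨x l, hmem l hl⟩
      have h3 : ∀ p : H', θ ((σ * τ p) • x l) = θ (σ • (((p : Equiv.Perm Y) y : Y) : Ω)) := by
        intro p
        rw [← hτ p, hφ, mul_smul]
      have h4 : ∑ p : H', θ (σ • ((((p * t0 : H') : Equiv.Perm Y) y : Y) : Ω)) =
          ∑ p : H', θ (σ • (((p : Equiv.Perm Y) y : Y) : Ω)) :=
        Fintype.sum_equiv (Equiv.mulRight t0) _ _ fun p => rfl
      have h5 : ∀ p : H', θ (σ • ((((p * t0 : H') : Equiv.Perm Y) y : Y) : Ω)) =
          - θ (σ • (((p : Equiv.Perm Y) y : Y) : Ω)) := by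
        intro p
        have h6 : ((((p * t0 : H') : Equiv.Perm Y) y : Y) : Ω) = τ p • τ0 • x l := by
          have h7 : ((p * t0 : H') : Equiv.Perm Y) = φ (τ p) * φ τ0 := by
            rw [hτ p]
            rfl
          rw [h7, Equiv.Perm.mul_apply, hφ, hφ]
        have h8 : (((p : Equiv.Perm Y) y : Y) : Ω) = τ p • x l := by
          rw [← hτ p, hφ]
        rw [h6, h8]
        have h9 := h2 (σ * τ p)
        rwa [mul_smul, mul_smul] at h9
      rw [Finset.sum_congr rfl fun p _ => h5 p, Finset.sum_neg_distrib] at h4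
      rw [Finset.sum_congr rfl fun p _ => h3 p]
      linarith
  have hF2 : (fun σ : G => ∑ p : H', ∑ l ∈ S, θ ((σ * τ p) • x l)) =
      ((Fintype.card H' : ℝ) * ((S.filter fun l => same k l).card : ℝ)) •
        fun σ : G => θ (σ • x k) := by
    funext σ
    rw [Finset.sum_comm, Finset.sum_congr rfl fun l hl => hterm l hl σ, ← Finset.sum_filter,
      Finset.sum_const, nsmul_eq_mul, Pi.smul_apply, smul_eq_mul]
    ring
  rw [hF2] at hF
  have hpos : (Fintype.card H' : ℝ) * ((S.filter fun l => same k l).card : ℝ) ≠ 0 := by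
    refine mul_ne_zero ?_ ?_
    · exact_mod_cast Fintype.card_ne_zero
    · have : (S.filter fun l => same k l).Nonempty := ⟨k, by simp [hk, hkk]⟩
      exact_mod_cast (Finset.card_pos.mpr this).ne'
  have := W.smul_mem ((Fintype.card H' : ℝ) * ((S.filter fun l => same k l).card : ℝ))⁻¹ hF
  rwa [smul_smul, inv_mul_cancel₀ hpos, one_smul] at this

end Pool.Agent.J4.H5.EL
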