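import Pool.Agent.J4.H5.EL.CoreC

/-!
# Project EL: eigenvectors of powers of Frobenius
-/

set_option autoImplicit false

open Polynomial Module

namespace Pool.Agent.J4.H5.EL

variable {p : ℕ} [hp : Fact p.Prime] {ι : Type*} (C : Curves p ι)
  {K V : Type*} [Field K] [Algebra Qb K] [AddCommGroup V] [Module K V]

omit hp in
/-- An eigenvector of a power of Frobenius has an eigenvalue which is a power of a root of one of the
polynomials. -/
lemma exists_root (F : Zeta p) {φ : Module.End K V} (hφ : F.Acts φ) {v : V} (hv : v ≠ 0) {n' : ℕ} {μ : Qb}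
    (h : (φ ^ n') v = algebraMap Qb K μ • v) :
    ∃ j, j ≤ 2 * F.d ∧ ∃ α : Qb, aeval α (F.P j) = 0 ∧ α ^ n' = μ := by
  set Q : ℚ[X] := ∏ j ∈ Finset.range (2 * F.d + 1), F.P j with hQ
  by_contra hno
  push Not at hno
  have hcop : IsCoprime (Q.map (algebraMap ℚ Qb)) (X ^ n' - Polynomial.C μ) := by
    by_contra hnc
    have h1 : ∃ a : Qb, aeval a (Q.map (algebraMap ℚ Qb)) = 0 ∧
        aeval a (X ^ n' - Polynomial.C μ) = 0 := by
      by_contra hcon
      push Not at hcon
      apply hnc
      have := (Polynomial.isCoprime_iff_aeval_ne_zero_of_isAlgClosed Qb Qb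
        (Q.map (algebraMap ℚ Qb)) (X ^ n' - Polynomial.C μ)).2
      exact this fun a => by
        by_cases h2 : aeval a (Q.map (algebraMap ℚ Qb)) = 0
        · exact Or.inr (hcon a h2)
        · exact Or.inl h2
    obtain ⟨a, h2, h3⟩ := h1
    rw [map_sub, map_pow, aeval_X, aeval_C, Algebra.algebraMap_self, RingHom.id_apply,
      sub_eq_zero] at h3
    rw [aeval_map_algebraMap, hQ, map_prod, Finset.prod_eq_zero_iff] at h2
    obtain ⟨j, hj, h4⟩ := h2
    exact hno j (by rw [Finset.mem_range] at hj; omega) a h4 h3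
  obtain ⟨u, t, hut⟩ := hcop
  have h1 := congrArg (fun P : Qb[X] => aeval φ (P.map (algebraMap Qb K)) v) hut
  simp only [Polynomial.map_add, Polynomial.map_mul, Polynomial.map_one, map_add, map_mul, map_one,
    Polynomial.map_map, Polynomial.map_sub, Polynomial.map_pow, Polynomial.map_X,
    Polynomial.map_C, map_sub, map_pow, aeval_X, aeval_C, LinearMap.add_apply,
    Module.End.mul_apply, Module.End.one_apply, LinearMap.sub_apply] at h1
  apply hv
  rw [← h1, hQ, hφ v, map_zero, zero_add, h]
  have h2 : (algebraMap K (Module.End K V) (algebraMap Qb K μ)) v = algebraMap Qb K μ • v := by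
    rw [Module.algebraMap_end_apply]
  rw [h2, sub_self]

end Pool.Agent.J4.H5.EL
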