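import Mathlib

/-!
# Project EL: the field of algebraic numbers and its Galois group
-/

set_option autoImplicit false

namespace Pool.Agent.J4.H5.EL

/-- an algebraic closure of `ℚ` -/
abbrev Qb : Type := AlgebraicClosure ℚ

/-- the Galois group of `ℚ` -/
abbrev GQ : Type := Qb ≃ₐ[ℚ] Qb

end Pool.Agent.J4.H5.EL
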