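import Pool.Agent.J4.H5.EL.Vals

/-!
# Project EL: relations between the eigenvalues of Frobenius
-/

set_option autoImplicit false

open Polynomial Module

namespace Pool.Agent.J4.H5.EL

lemma normSq_of_roots {x y : ℂ} {a q : ℝ} (hs : x + y = a) (hm : x * y = q) (h : a ^ 2 ≤ 4 * q) :
    ‖x‖ ^ 2 = q := by
  have h1 : x ^ 2 - a * x + q = 0 := by rw [← hs, ← hm]; ring
  have hre := congrArg Complex.re h1
  have him := congrArg Complex.im h1
  simp only [pow_two, Complex.add_re, Complex.sub_re, Complex.mul_re, Complex.ofReal_re,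
    Complex.ofReal_im, Complex.add_im, Complex.sub_im, Complex.mul_im, Complex.zero_re,
    Complex.zero_im] at hre him
  rw [Complex.sq_norm, Complex.normSq_apply]
  have h2 : x.im * (2 * x.re - a) = 0 := by nlinarith
  rcases mul_eq_zero.1 h2 with h3 | h3
  · rw [h3] at hre ⊢
    have h4 : (x.re - a / 2) ^ 2 = a ^ 2 / 4 - q := by nlinarith
    have h5 : (x.re - a / 2) ^ 2 ≤ 0 := by nlinarith
    have h6 : x.re - a / 2 = 0 := by
      have := sq_nonneg (x.re - a / 2)
      exact pow_eq_zero_iff (two_ne_zero) |>.1 (le_antisymm h5 this)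
    have h7 : x.re = a / 2 := by linarith
    have h8 : a ^ 2 / 4 - q = 0 := by rw [← h4, h6]; ring
    rw [h7]
    nlinarith
  · have h4 : a = 2 * x.re := by linarith
    rw [h4] at hre
    linarith

variable {p : ℕ} [hp : Fact p.Prime] {w : AbsoluteValue Qb ℝ} {ι : Type*} (C : Curves p ι)

lemma norm_root (ρ : Qb →+* ℂ) (i : ι) (b : Bool) : ‖ρ (C.root i b)‖ ^ 2 = (p : ℝ) ^ C.e i := by
  have h1 : ρ (C.root i true) + ρ (C.root i false) = ((C.a i : ℝ) : ℂ) := by
    rw [← map_add, C.add i, map_intCast]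
    push_cast
    rfl
  have h2 : ρ (C.root i true) * ρ (C.root i false) = (((p : ℝ) ^ C.e i : ℝ) : ℂ) := by
    rw [← map_mul, C.mul i, map_pow, map_natCast]
    push_cast
    rfl
  have h3 : ((C.a i : ℝ)) ^ 2 ≤ 4 * (p : ℝ) ^ C.e i := by exact_mod_cast C.bound i
  cases b
  · exact normSq_of_roots (y := ρ (C.root i true)) (by rw [add_comm]; exact h1)
      (by rw [mul_comm]; exact h2) h3
  · exact normSq_of_roots h1 h2 h3

lemma exists_rho : Nonempty (Qb →+* ℂ) := by
  have h1 : Normal ℚ Qb := normal_Qb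
  have : Algebra.IsAlgebraic ℚ Qb := h1.toIsAlgebraic
  exact ⟨(IsAlgClosed.lift (R := ℚ) (S := Qb) (M := ℂ)).toRingHom⟩

/-- the conjugates of a root are roots -/
lemma root_conj {P : ℚ[X]} {α : Qb} (h : aeval α P = 0) (σ : GQ) : aeval (σ α) P = 0 := by
  have h1 := Polynomial.aeval_algHom_apply (σ : Qb →ₐ[ℚ] Qb) α P
  have h2 : aeval (σ α) P = σ (aeval α P) := h1
  rw [h2, h, map_zero]

lemma root_ne_zero (F : Zeta p) {j : ℕ} (hj : j ≤ 2 * F.d) {α : Qb}
    (h : aeval α (F.P j) = 0) : α ≠ 0 := by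
  intro h0
  obtain ⟨ρ⟩ := exists_rho
  have h1 := F.weight j hj α h ρ
  rw [h0, map_zero, norm_zero] at h1
  have h2 : (0 : ℝ) < (p : ℝ) ^ (F.e * j) := by
    have := hp.out.pos
    positivity
  rw [← h1] at h2
  norm_num at h2

/-- the slope function of a pair of a degree and an algebraic number -/
noncomputable def slope (p : ℕ) (w : AbsoluteValue Qb ℝ) (F : Zeta p) (x : ℕ × Qb)
    (σ : GQ) : ℝ := 2 * val p w (σ x.2) / F.e - x.1

lemma slope_level (hw : IsPadic p w) {F : Zeta p} {lev : ℕ → ℕ} (hlev : HasLevel w F lev)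
    {j : ℕ} (hj : j ≤ 2 * F.d) {α : Qb} (h : aeval α (F.P j) = 0) (σ : GQ) :
    |slope p w F (j, α) σ| ≤ lev j := by
  obtain ⟨h1, h2⟩ := hlev j hj (σ α) (root_conj h σ)
  have hα : σ α ≠ 0 := by
    rw [Ne, map_eq_zero]
    exact root_ne_zero F hj h
  have hwα : 0 < w (σ α) := w.pos hα
  have hwp := wp_pos hw
  have hL := logp_neg hw
  have he : (0 : ℝ) < F.e := by exact_mod_cast F.e_pos
  have h3 := Real.log_le_log (by positivity) h1
  have h4 := Real.log_le_log (by positivity) h2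
  rw [Real.log_pow, Real.log_pow] at h3
  rw [Real.log_mul (by positivity) (by positivity), Real.log_pow, Real.log_pow,
    Real.log_pow] at h4
  push_cast at h3 h4
  unfold slope val
  have key : 2 * (Real.log (w (σ α)) / Real.log (w p)) / F.e - j =
      (2 * Real.log (w (σ α)) - F.e * j * Real.log (w p)) / (F.e * Real.log (w p)) := by
    have := hL.ne
    field_simp
  simp only
  rw [key, abs_le]
  have hneg : F.e * Real.log (w p) < 0 := mul_neg_of_pos_of_neg he hL
  constructor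
  · rw [le_div_iff_of_neg hneg]
    nlinarith
  · rw [div_le_iff_of_neg hneg]
    nlinarith

/-- the eigenvalue of a sign -/
def bs (s : Cmp) : Bool := match s with
  | .plus => true
  | _ => false

omit hp in
lemma eig_bs (i : ι) {s : Cmp} (hs : s = Cmp.plus ∨ s = Cmp.minus) :
    C.eig i s = C.root i (bs s) := by
  rcases hs with rfl | rfl <;> rfl

/-- the parity and the slopes of a relation -/
lemma relation (hw : IsPadic p w) (F : Zeta p) {κ : Type*} (c : κ → ι) (S : Finset κ)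
    (s : κ → Cmp) (hs : ∀ k ∈ S, s k = Cmp.plus ∨ s k = Cmp.minus) {n j i' : ℕ} {α : Qb}
    (hn : 0 < n) (hFn : F.e ∣ n) (hCn : ∀ k ∈ S, C.e (c k) ∣ n) (hj : j ≤ 2 * F.d)
    (hα : aeval α (F.P j) = 0)
    (h : (∏ k ∈ S, C.eig (c k) (s k) ^ (n / C.e (c k))) * α ^ (n / F.e) = (p : Qb) ^ (n * i')) :
    j + S.card = 2 * i' ∧ ∀ σ : GQ, slope p w F (j, α) σ =
      - ∑ k ∈ S, (2 * val p w (σ (C.root (c k) (bs (s k)))) / C.e (c k) - 1) := by
  have hn' : (0 : ℝ) < n := by exact_mod_cast hn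
  have hFe : (0 : ℝ) < F.e := by exact_mod_cast F.e_pos
  have hα0 : α ≠ 0 := root_ne_zero F hj hα
  have h' : (∏ k ∈ S, C.root (c k) (bs (s k)) ^ (n / C.e (c k))) * α ^ (n / F.e) =
      (p : Qb) ^ (n * i') := by
    rw [← h]
    congr 1
    exact Finset.prod_congr rfl fun k hk => by rw [eig_bs C _ (hs k hk)]
  have hFn' : ((n / F.e : ℕ) : ℝ) = n / F.e := Nat.cast_div hFn hFe.ne'
  have hCn' : ∀ k ∈ S, ((n / C.e (c k) : ℕ) : ℝ) = n / C.e (c k) := fun k hk =>
    Nat.cast_div (hCn k hk) (by exact_mod_cast (C.e_pos (c k)).ne')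
  -- weights
  have hwt : j + S.card = 2 * i' := by
    obtain ⟨ρ⟩ := exists_rho
    have h1 := congrArg (fun x => ‖ρ x‖ ^ 2) h'
    simp only [map_mul, map_prod, map_pow, map_natCast, norm_mul, norm_prod, norm_pow,
      mul_pow] at h1
    rw [← Finset.prod_pow] at h1
    have h2 : ∀ k ∈ S, (‖ρ (C.root (c k) (bs (s k)))‖ ^ (n / C.e (c k))) ^ 2 = (p : ℝ) ^ n := by
      intro k hk
      rw [← pow_mul, mul_comm, pow_mul, norm_root C ρ, ← pow_mul, Nat.mul_div_cancel' (hCn k hk)]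
    rw [Finset.prod_congr rfl h2, Finset.prod_const, ← pow_mul, ← pow_mul,
      mul_comm (n / F.e) 2, pow_mul ‖ρ α‖, F.weight j hj α hα ρ, ← pow_mul,
      show F.e * j * (n / F.e) = n * j by
        rw [mul_right_comm, Nat.mul_div_cancel' hFn], ← pow_add] at h1
    have h3 : ‖(p : ℂ)‖ = (p : ℝ) := by simp
    rw [h3, ← pow_mul] at h1
    have h4 : (p : ℝ) ^ (n * S.card + n * j) = (p : ℝ) ^ (n * i' * 2) := h1
    have h5 : n * S.card + n * j = n * i' * 2 := by
      have hp2 : (1 : ℝ) < p := by exact_mod_cast hp.out.one_lt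
      exact pow_right_injective₀ (by linarith) hp2.ne' h4
    have h6 : n * (j + S.card) = n * (2 * i') := by rw [mul_add]; linarith
    exact Nat.eq_of_mul_eq_mul_left hn h6
  refine ⟨hwt, fun σ => ?_⟩
  have h1 := congrArg (fun x => val p w (σ x)) h'
  simp only [map_mul, map_prod, map_pow, map_natCast] at h1
  have hr : ∀ k, σ (C.root (c k) (bs (s k))) ≠ 0 := fun k => by
    rw [Ne, map_eq_zero]
    exact root_ne C _ _
  have hσα : σ α ≠ 0 := by rwa [Ne, map_eq_zero]
  rw [val_mul hw (Finset.prod_ne_zero_iff.2 fun k _ => pow_ne_zero _ (hr k)) (pow_ne_zero _ hσα),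
    val_prod hw S _ (fun k _ => pow_ne_zero _ (hr k)), val_pow, val_p_pow hw] at h1
  have h2 : ∀ k ∈ S, val p w (σ (C.root (c k) (bs (s k))) ^ (n / C.e (c k))) =
      n / 2 * (2 * val p w (σ (C.root (c k) (bs (s k)))) / C.e (c k) - 1) + n / 2 := by
    intro k hk
    rw [val_pow, hCn' k hk]
    ring
  rw [Finset.sum_congr rfl h2, Finset.sum_add_distrib, ← Finset.mul_sum, Finset.sum_const,
    nsmul_eq_mul, hFn'] at h1
  have h3 : (j : ℝ) + S.card = 2 * i' := by exact_mod_cast hwt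
  push_cast at h1
  unfold slope
  simp only
  have h4 : (n : ℝ) / 2 * (2 * val p w (σ α) / F.e - j + ∑ k ∈ S,
      (2 * val p w (σ (C.root (c k) (bs (s k)))) / C.e (c k) - 1)) = 0 := by
    have h5 : (n : ℝ) * i' = n / 2 * (j + S.card) := by rw [h3]; ring
    rw [h5] at h1
    have h6 : (n : ℝ) / F.e * val p w (σ α) = n / 2 * (2 * val p w (σ α) / F.e) := by ring
    rw [h6] at h1
    linarith
  rcases mul_eq_zero.1 h4 with h5 | h5
  · linarith
  · linarith

end Pool.Agent.J4.H5.EL
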