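import Pool.Agent.J4.H5.EL.Core

/-!
# Project EL: the finite set of curves
-/

set_option autoImplicit false

open Polynomial Module

namespace Pool.Agent.J4.H5.EL

variable {p : ℕ} [hp : Fact p.Prime] {w : AbsoluteValue Qb ℝ} {ι : Type*} (C : Curves p ι)

omit hp in
lemma mem_transRoots {F : Zeta p} {x : ℕ × Qb} : x ∈ transRoots F ↔
    x.1 ≤ 2 * F.d ∧ aeval x.2 (F.P x.1) = 0 ∧
      ∀ n : ℕ, 0 < n → x.2 ^ (2 * n) ≠ (p : Qb) ^ (F.e * x.1 * n) := by
  classical
  obtain ⟨j, α⟩ := x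
  unfold transRoots
  rw [Finset.mem_filter, Finset.mem_biUnion]
  simp only [Finset.mem_range, Finset.mem_image, Prod.mk.injEq, Multiset.mem_toFinset]
  constructor
  · rintro ⟨⟨j', h1, α', h2, rfl, rfl⟩, h3⟩
    exact ⟨by omega, ((mem_aroots (S := Qb)).1 h2).2, h3⟩
  · rintro ⟨h1, h2, h3⟩
    exact ⟨⟨j, by omega, α, (mem_aroots (S := Qb)).2 ⟨F.ne_zero j, h2⟩, rfl, rfl⟩, h3⟩

/-- the space of the slope functions -/
noncomputable def slopes (p : ℕ) (w : AbsoluteValue Qb ℝ) (F : Zeta p) :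
    Submodule ℝ (GQ → ℝ) :=
  Submodule.span ℝ ((fun x => slope p w F x) '' (transRoots F : Set (ℕ × Qb)))

instance (F : Zeta p) : Module.Finite ℝ (slopes p w F) :=
  Module.Finite.span_of_finite ℝ ((Finset.finite_toSet _).image _)

lemma slope_mem (hw : IsPadic p w) (F : Zeta p) {j : ℕ} (hj : j ≤ 2 * F.d) {α : Qb}
    (h : aeval α (F.P j) = 0) : slope p w F (j, α) ∈ slopes p w F := by
  by_cases h1 : ∀ n : ℕ, 0 < n → α ^ (2 * n) ≠ (p : Qb) ^ (F.e * j * n)
  · exact Submodule.subset_span ⟨(j, α), mem_transRoots.2 ⟨hj, h, h1⟩, rfl⟩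
  · push Not at h1
    obtain ⟨n, hn, h2⟩ := h1
    have h3 : slope p w F (j, α) = 0 := by
      funext σ
      have h4 : (σ α) ^ (2 * n) = (p : Qb) ^ (F.e * j * n) := by
        rw [← map_pow, h2, map_pow, map_natCast]
      have h5 := congrArg (val p w) h4
      rw [val_pow, val_p_pow hw] at h5
      push_cast at h5
      have hn' : (0 : ℝ) < n := by exact_mod_cast hn
      have he : (0 : ℝ) < F.e := by exact_mod_cast F.e_pos
      have h6 : 2 * val p w (σ α) = F.e * j := by
        have h7 : (n : ℝ) * (2 * val p w (σ α) - F.e * j) = 0 := by linarith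
        rcases mul_eq_zero.1 h7 with h8 | h8
        · exact absurd h8 hn'.ne'
        · linarith
      unfold slope
      simp only [Pi.zero_apply]
      rw [h6]
      field_simp
      ring
    rw [h3]
    exact Submodule.zero_mem _

lemma slopes_trans {F : Zeta p} {f : GQ → ℝ} (hf : f ∈ slopes p w F) (τ : GQ) :
    (fun σ => f (σ * τ)) ∈ slopes p w F := by
  unfold slopes at hf
  induction hf using Submodule.span_induction with
  | mem x hx =>
    obtain ⟨y, hy, rfl⟩ := hx
    obtain ⟨h1, h2, h3⟩ := mem_transRoots.1 (Finset.mem_coe.1 hy)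
    refine Submodule.subset_span ⟨(y.1, τ y.2), Finset.mem_coe.2 (mem_transRoots.2 ⟨h1,
      root_conj h2 τ, fun n hn h => h3 n hn ?_⟩), rfl⟩
    simp only at h
    have h4 : τ (y.2 ^ (2 * n)) = τ ((p : Qb) ^ (F.e * y.1 * n)) := by
      rw [map_pow, h, map_pow, map_natCast]
    exact τ.injective h4
  | zero => exact Submodule.zero_mem _
  | add x y _ _ hx hy => exact Submodule.add_mem _ hx hy
  | smul r x _ hx => exact Submodule.smul_mem _ r hx

lemma slopes_half (hw : IsPadic p w) (F : Zeta p) :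
    2 * finrank ℝ (slopes p w F) ≤ (transRoots F).card := by
  classical
  obtain ⟨ρ⟩ := exists_rho
  obtain ⟨c, hc⟩ := exists_conj ρ
  have hpp : (p : Qb) ≠ 0 := by exact_mod_cast hp.out.ne_zero
  have key : ∀ x ∈ transRoots F, c x.2 = (p : Qb) ^ (F.e * x.1) / x.2 ∧ x.2 ≠ 0 := by
    intro x hx
    obtain ⟨h1, h2, h3⟩ := mem_transRoots.1 hx
    have h0 := root_ne_zero F h1 h2
    refine ⟨?_, h0⟩
    rw [eq_div_iff h0]
    apply ρ.injective
    rw [map_mul, hc, map_pow, map_natCast, mul_comm, Complex.mul_conj, Complex.normSq_eq_norm_sq,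
      F.weight x.1 h1 x.2 h2 ρ]
    push_cast
    rfl
  unfold slopes
  refine half (fun x => slope p w F x) (fun x => (x.1, (p : Qb) ^ (F.e * x.1) / x.2)) _ ?_ ?_ ?_ ?_
  · intro x hx
    obtain ⟨h1, h2, h3⟩ := mem_transRoots.1 hx
    obtain ⟨h4, h5⟩ := key x hx
    refine mem_transRoots.2 ⟨h1, ?_, fun n hn h => h3 n hn ?_⟩
    · rw [← h4]
      exact root_conj h2 c
    · simp only at h
      rw [← h4, ← map_pow] at h
      apply c.injective
      rw [h, map_pow, map_natCast]
  · intro x hx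
    obtain ⟨h4, h5⟩ := key x hx
    have : (p : Qb) ^ (F.e * x.1) ≠ 0 := pow_ne_zero _ hpp
    ext
    · rfl
    · simp only
      rw [div_div_cancel₀ this]
  · intro x hx h
    obtain ⟨h1, h2, h3⟩ := mem_transRoots.1 hx
    obtain ⟨h4, h5⟩ := key x hx
    have h6 := congrArg Prod.snd h
    simp only at h6
    apply h3 1 one_pos
    rw [div_eq_iff h5] at h6
    rw [mul_one, mul_one, pow_two]
    exact h6.symm
  · intro x hx
    obtain ⟨h4, h5⟩ := key x hx
    have h6 : (p : Qb) ^ (F.e * x.1) ≠ 0 := pow_ne_zero _ hpp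
    funext σ
    unfold slope
    simp only [Pi.neg_apply]
    have h7 : val p w (σ ((p : Qb) ^ (F.e * x.1) / x.2)) = F.e * x.1 - val p w (σ x.2) := by
      have h8 : σ ((p : Qb) ^ (F.e * x.1) / x.2) * σ x.2 = (p : Qb) ^ (F.e * x.1) := by
        rw [← map_mul, div_mul_cancel₀ _ h5, map_pow, map_natCast]
      have h9 : σ ((p : Qb) ^ (F.e * x.1) / x.2) ≠ 0 := by
        rw [Ne, map_eq_zero]
        exact div_ne_zero h6 h5
      have h10 : σ x.2 ≠ 0 := by rwa [Ne, map_eq_zero]
      have h11 := congrArg (val p w) h8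
      rw [val_mul hw h9 h10, val_p_pow hw] at h11
      push_cast at h11
      linarith
    rw [h7]
    have he : (F.e : ℝ) ≠ 0 := by exact_mod_cast F.e_pos.ne'
    field_simp
    ring

/-- the finite set of the ordinary curves whose character is a slope function -/
lemma exists_B (hw : IsPadic p w) (F : Zeta p) :
    ∃ B : Finset ι, 2 * B.card ≤ (transRoots F).card ∧ (∀ i ∈ B, ¬ C.IsSS i) ∧
      ∀ i, ¬ C.IsSS i → (fun σ : GQ => (((chi C i σ : ℤˣ) : ℤ) : ℝ)) ∈ slopes p w F → i ∈ B := by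
  classical
  set X : Set ι := {i | ¬ C.IsSS i ∧ (fun σ : GQ => (((chi C i σ : ℤˣ) : ℤ) : ℝ)) ∈ slopes p w F}
    with hX
  have hle : ∀ B : Finset ι, (B : Set ι) ⊆ X → B.card ≤ finrank ℝ (slopes p w F) := by
    intro B hB
    refine card_le _ (chi C) B ?_ fun i hi => (hB hi).2
    intro i hi j hj hij
    exact chi_injOn C (hB hi).1 (hB hj).1 hij
  have hfin : X.Finite := by
    by_contra hinf
    obtain ⟨B, hB, hcard⟩ := Set.Infinite.exists_subset_card_eq hinf
      (finrank ℝ (slopes p w F) + 1)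
    have := hle B hB
    omega
  refine ⟨hfin.toFinset, ?_, fun i hi => ((hfin.mem_toFinset).1 hi).1, fun i h1 h2 =>
    hfin.mem_toFinset.2 ⟨h1, h2⟩⟩
  have h1 := hle hfin.toFinset (by rw [hfin.coe_toFinset])
  have h2 := slopes_half hw F
  omega

end Pool.Agent.J4.H5.EL
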