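import Pool.Agent.J4.H5.EL.CoreB

/-!
# Project EL: the core theorem
-/

set_option autoImplicit false

open Polynomial Module

namespace Pool.Agent.J4.H5.EL

variable {p : ℕ} [hp : Fact p.Prime] {w : AbsoluteValue Qb ℝ} {ι : Type*} (C : Curves p ι)

open Classical in
/-- A multiplicative relation between an eigenvalue of Frobenius on the cohomology of `Z` and
eigenvalues of Frobenius on `H^1` of the members of a product of curves, with equal eigenvalues for
equal ordinary curves, exists for small products only. -/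
theorem small_of_relation (hw : IsPadic p w) (F : Zeta p) {lev : ℕ → ℕ}
    (hlev : HasLevel w F lev) (B : Finset ι)
    (hB : ∀ i, ¬ C.IsSS i → (fun σ : GQ => (((chi C i σ : ℤˣ) : ℤ) : ℝ)) ∈ slopes p w F → i ∈ B)
    {κ : Type*} (c : κ → ι) (S : Finset κ)
    (s : κ → Cmp) (hs : ∀ k ∈ S, s k = Cmp.plus ∨ s k = Cmp.minus)
    (hcoh : ∀ k ∈ S, ∀ l ∈ S, c k = c l → ¬ C.IsSS (c k) → s k = s l)
    (hss : ∀ k ∈ S, ∀ l ∈ S, C.IsSS (c k) → C.IsSS (c l) → k = l) {n j i' : ℕ} {α : Qb}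
    (hn : 0 < n) (hFn : F.e ∣ n) (hCn : ∀ k ∈ S, C.e (c k) ∣ n) (hj : j ≤ 2 * F.d)
    (hα : aeval α (F.P j) = 0)
    (h : (∏ k ∈ S, C.eig (c k) (s k) ^ (n / C.e (c k))) * α ^ (n / F.e) = (p : Qb) ^ (n * i')) :
    Small C F lev B c S := by
  obtain ⟨hpar, hrel⟩ := relation C hw F c S s hs hn hFn hCn hj hα h
  set I : Finset ι := (S.image c).filter (fun i => ¬ C.IsSS i) with hI
  have hIss : ∀ i : I, ¬ C.IsSS i.1 := fun i => (Finset.mem_filter.1 i.2).2
  set m : ι → ℤ := fun i => ∑ k ∈ S.filter (fun k => c k = i), eta C w i (bs (s k)) with hm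
  -- the slope function
  have hrel' : ∀ σ : GQ, slope p w F (j, α) σ =
      ∑ i : I, (-(m i.1) : ℝ) * (((chi C i.1 σ : ℤˣ) : ℤ) : ℝ) := by
    intro σ
    rw [hrel σ]
    have h1 : ∑ k ∈ S, (2 * val p w (σ (C.root (c k) (bs (s k)))) / C.e (c k) - 1) =
        ∑ i ∈ S.image c, ∑ k ∈ S.filter (fun k => c k = i),
          (2 * val p w (σ (C.root (c k) (bs (s k)))) / C.e (c k) - 1) :=
      (Finset.sum_fiberwise_of_maps_to (fun k hk => Finset.mem_image_of_mem c hk) _).symm
    have h2 : ∑ i ∈ S.image c, ∑ k ∈ S.filter (fun k => c k = i),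
          (2 * val p w (σ (C.root (c k) (bs (s k)))) / C.e (c k) - 1) =
        ∑ i ∈ I, ∑ k ∈ S.filter (fun k => c k = i),
          (2 * val p w (σ (C.root (c k) (bs (s k)))) / C.e (c k) - 1) := by
      symm
      refine Finset.sum_subset (Finset.filter_subset _ _) fun i hi hi' => ?_
      have h3 : C.IsSS i := by
        by_contra h3
        exact hi' (Finset.mem_filter.2 ⟨hi, h3⟩)
      refine Finset.sum_eq_zero fun k hk => ?_
      obtain ⟨-, rfl⟩ := Finset.mem_filter.1 hk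
      rw [val_sigma_ss hw C h3]
      have : (C.e (c k) : ℝ) ≠ 0 := by exact_mod_cast (C.e_pos _).ne'
      rw [div_self this, sub_self]
    rw [h1, h2, ← Finset.sum_coe_sort I, ← Finset.sum_neg_distrib]
    refine Finset.sum_congr rfl fun i _ => ?_
    have h4 : ∀ k ∈ S.filter (fun k => c k = i.1),
        (2 * val p w (σ (C.root (c k) (bs (s k)))) / C.e (c k) - 1) =
          (eta C w i.1 (bs (s k)) : ℝ) * (((chi C i.1 σ : ℤˣ) : ℤ) : ℝ) := by
      intro k hk
      obtain ⟨-, h5⟩ := Finset.mem_filter.1 hk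
      rw [h5, val_sigma hw C (hIss i)]
      have : (C.e i.1 : ℝ) ≠ 0 := by exact_mod_cast (C.e_pos _).ne'
      field_simp
      ring
    rw [Finset.sum_congr rfl h4, ← Finset.sum_mul, hm]
    push_cast
    ring
  have hinj : Function.Injective fun i : I => chi C i.1 := fun i i' hii =>
    Subtype.ext (chi_injOn C (hIss i) (hIss i') hii)
  have hmsq : ∀ i ∈ I, m i ^ 2 = (mult c S i : ℤ) ^ 2 ∧ m i ≠ 0 := by
    intro i hi
    obtain ⟨hi1, hi2⟩ := Finset.mem_filter.1 hi
    obtain ⟨k0, hk0, rfl⟩ := Finset.mem_image.1 hi1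
    have h1 : m (c k0) = (mult c S (c k0) : ℤ) * eta C w (c k0) (bs (s k0)) := by
      rw [hm]
      simp only
      rw [Finset.sum_congr rfl (g := fun _ => eta C w (c k0) (bs (s k0))) ?_, Finset.sum_const,
        nsmul_eq_mul]
      · rfl
      · intro k hk
        obtain ⟨h2, h3⟩ := Finset.mem_filter.1 hk
        rw [hcoh k h2 k0 hk0 h3 (by rw [h3]; exact hi2)]
    have h2 := (eta_spec hw C hi2 (bs (s k0))).2.2
    have h3 : m (c k0) ^ 2 = (mult c S (c k0) : ℤ) ^ 2 := by rw [h1, mul_pow, h2, mul_one]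
    refine ⟨h3, fun h4 => ?_⟩
    rw [h4] at h3
    have h5 : (mult c S (c k0) : ℤ) = 0 := by
      have : (mult c S (c k0) : ℤ) ^ 2 = 0 := by rw [← h3]; norm_num
      exact pow_eq_zero_iff (two_ne_zero) |>.1 this
    have h6 : mult c S (c k0) = 0 := by exact_mod_cast h5
    unfold mult at h6
    rw [Finset.card_eq_zero] at h6
    have h7 : k0 ∈ S.filter fun k => c k = c k0 := Finset.mem_filter.2 ⟨hk0, rfl⟩
    have h8 := h6 ▸ h7
    simp at h8
  refine ⟨fun k hk hkss => ?_, hss, j, hj, ⟨i', by omega⟩, ?_⟩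
  · -- membership in `B`
    have hi : c k ∈ I := Finset.mem_filter.2 ⟨Finset.mem_image_of_mem c hk, hkss⟩
    refine hB _ hkss ?_
    refine mem_of_comb (slopes p w F) (fun f hf τ => slopes_trans hf τ) (fun i : I => chi C i.1) hinj
      (fun i => (-(m i.1) : ℝ)) ?_ ⟨c k, hi⟩ ?_
    · have h1 := slope_mem hw F hj hα
      have h2 : slope p w F (j, α) =
          fun σ : GQ => ∑ i : I, (-(m i.1) : ℝ) * (((chi C i.1 σ : ℤˣ) : ℤ) : ℝ) := funext hrel'
      rw [← h2]
      exact h1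
    · have := (hmsq (c k) hi).2
      simpa using this
  · -- the bound
    have h1 := sum_sq_le (fun i : I => chi C i.1) hinj (fun i => m i.1) (lev j) (fun σ => ?_)
    · have h2 : ((∑ i ∈ I, mult c S i ^ 2 : ℕ) : ℤ) ≤ ((lev j ^ 2 : ℕ) : ℤ) := by
        push_cast
        calc ∑ i ∈ I, (mult c S i : ℤ) ^ 2 = ∑ i ∈ I, m i ^ 2 :=
              Finset.sum_congr rfl fun i hi => ((hmsq i hi).1).symm
          _ = ∑ i : I, m i.1 ^ 2 := (Finset.sum_coe_sort I fun i => m i ^ 2).symm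
          _ ≤ _ := h1
      exact_mod_cast h2
    · have h3 := slope_level hw hlev hj hα σ
      rw [hrel' σ] at h3
      have h4 : ∑ i : I, (-(m i.1) : ℝ) * (((chi C i.1 σ : ℤˣ) : ℤ) : ℝ) =
          ((-(∑ i : I, m i.1 * ((chi C i.1 σ : ℤˣ) : ℤ)) : ℤ) : ℝ) := by
        push_cast
        rw [← Finset.sum_neg_distrib]
        exact Finset.sum_congr rfl fun i _ => by ring
      rw [h4] at h3
      have h5 : |(-(∑ i : I, m i.1 * ((chi C i.1 σ : ℤˣ) : ℤ)) : ℤ)| ≤ (lev j : ℤ) := by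
        exact_mod_cast h3
      rwa [abs_neg] at h5

end Pool.Agent.J4.H5.EL
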