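import Pool.Agent.J4.H5.EL.Base

/-!
# Project EL: definitions

Products of a variety `Z` with curves of genus one over an algebraic closure of the field with `p` elements.
-/

set_option autoImplicit false

open Polynomial

namespace Pool.Agent.J4.H5.EL

/-- A `p`-adic absolute value on the field of algebraic numbers. -/
structure IsPadic (p : ℕ) (w : AbsoluteValue Qb ℝ) : Prop where
  ultra : ∀ x y, w (x + y) ≤ max (w x) (w y)
  lt_one : w p < 1

/-- Curves `E i` of genus one, pairwise not isogenous over an algebraic closure of the field with `p`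
elements: `E i` has a model over the field with `p ^ e i` elements, `a i` is the trace of the
Frobenius endomorphism, and `root i true`, `root i false` are its eigenvalues on the first
cohomology. `E i` is ordinary if `p` does not divide `a i`, and otherwise it is supersingular: then the
eigenvalues are the square root of `p ^ e i` times a root of unity. All supersingular curves are
isogenous, and two ordinary curves with the same imaginary quadratic field are isogenous. -/
structure Curves (p : ℕ) (ι : Type*) where
  /-- the degree of the field of definition -/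
  e : ι → ℕ
  /-- the trace of Frobenius -/
  a : ι → ℤ
  /-- the eigenvalues of Frobenius -/
  root : ι → Bool → Qb
  e_pos : ∀ i, 0 < e i
  add : ∀ i, root i true + root i false = a i
  mul : ∀ i, root i true * root i false = (p : Qb) ^ e i
  bound : ∀ i, a i ^ 2 ≤ 4 * (p : ℤ) ^ e i
  supersingular : ∀ i, (p : ℤ) ∣ a i → ∃ n, 0 < n ∧ ∀ b, root i b ^ (2 * n) = (p : Qb) ^ (e i * n)
  one_supersingular : ∀ i j, (p : ℤ) ∣ a i → (p : ℤ) ∣ a j → i = j
  fields : ∀ i j, i ≠ j → ¬ (p : ℤ) ∣ a i → ¬ (p : ℤ) ∣ a j →
    ¬ IsSquare ((a i ^ 2 - 4 * (p : ℤ) ^ e i) * (a j ^ 2 - 4 * (p : ℤ) ^ e j))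

/-- The curve `E i` is supersingular. -/
def Curves.IsSS {p : ℕ} {ι : Type*} (C : Curves p ι) (i : ι) : Prop := (p : ℤ) ∣ C.a i

/-- The four lines of the cohomology of a curve of genus one: `H^0`, two eigenlines of Frobenius
spanning `H^1`, and `H^2`. -/
inductive Cmp : Type
  | zero | plus | minus | two
  deriving DecidableEq

/-- The eigenvalue of Frobenius on a line of the cohomology of `E i`. -/
noncomputable def Curves.eig {p : ℕ} {ι : Type*} (C : Curves p ι) (i : ι) : Cmp → Qb
  | .zero => 1
  | .plus => C.root i true
  | .minus => C.root i false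
  | .two => (p : Qb) ^ C.e i

/-- The zeta function of a variety `Z` of dimension `d` which has a model over the field with `p ^ e`
elements: the polynomials `P j`, `j ≤ 2 d`, have rational coefficients and annihilate the Frobenius
endomorphism on the cohomology of `Z` of degree `j`, for instance the characteristic polynomials; their
roots have the absolute value `p ^ (e j / 2)` (Deligne). -/
structure Zeta (p : ℕ) where
  /-- the dimension -/
  d : ℕ
  /-- the degree of the field of definition -/
  e : ℕ
  /-- the polynomials -/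
  P : ℕ → ℚ[X]
  e_pos : 0 < e
  ne_zero : ∀ j, P j ≠ 0
  weight : ∀ j, j ≤ 2 * d → ∀ α : Qb, aeval α (P j) = 0 → ∀ ρ : Qb →+* ℂ,
    ‖ρ α‖ ^ 2 = (p : ℝ) ^ (e * j)

/-- `φ` is the Frobenius endomorphism of the cohomology `V` of `Z`, with coefficients in an
extension `K` of the field of algebraic numbers: it is annihilated by the product of the `P j`. -/
def Zeta.Acts {p : ℕ} (F : Zeta p) {K V : Type*} [Field K] [Algebra Qb K] [AddCommGroup V]
    [Module K V] (φ : Module.End K V) : Prop :=
  ∀ v, aeval φ ((∏ j ∈ Finset.range (2 * F.d + 1), F.P j).map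
    ((algebraMap Qb K).comp (algebraMap ℚ Qb))) v = 0

section

variable {p : ℕ}

/-- The slopes of the cohomology of `Z` of degree `j` are between `(j - lev j) / 2` and
`(j + lev j) / 2`: for instance `lev j = j` or `lev j = 2 d - j`. -/
def HasLevel (w : AbsoluteValue Qb ℝ) (F : Zeta p) (lev : ℕ → ℕ) : Prop :=
  ∀ j, j ≤ 2 * F.d → ∀ α : Qb, aeval α (F.P j) = 0 →
    w p ^ (F.e * (j + lev j)) ≤ w α ^ 2 ∧ w α ^ 2 * w p ^ (F.e * lev j) ≤ w p ^ (F.e * j)

open Classical in
/-- The pairs of a degree `j ≤ 2 d` and a root `α` of `P j` which is not `p ^ (e j / 2)` times a root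
of unity. -/
noncomputable def transRoots (F : Zeta p) : Finset (ℕ × Qb) :=
  ((Finset.range (2 * F.d + 1)).biUnion fun j =>
    ((F.P j).aroots Qb).toFinset.image fun α => (j, α)).filter fun x =>
      ∀ n : ℕ, 0 < n → x.2 ^ (2 * n) ≠ (p : Qb) ^ (F.e * x.1 * n)

variable {ι κ : Type*}

open Classical in
/-- The number of the factors `k` in `S` isogenous to `E i`. -/
noncomputable def mult (c : κ → ι) (S : Finset κ) (i : ι) : ℕ := (S.filter fun k => c k = i).card

open Classical in
/-- The product of the curves `E (c k)`, `k ∈ S`, is small: the ordinary members belong to `B`, at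
most one member is supersingular, and for some degree `j ≤ 2 d` with `j + |S|` even the sum of
the squares of the multiplicities of the ordinary curves is at most `lev j ^ 2`. -/
def Small (C : Curves p ι) (F : Zeta p) (lev : ℕ → ℕ) (B : Finset ι) (c : κ → ι)
    (S : Finset κ) : Prop :=
  (∀ k ∈ S, ¬ C.IsSS (c k) → c k ∈ B) ∧ (∀ k ∈ S, ∀ l ∈ S, C.IsSS (c k) → C.IsSS (c l) → k = l) ∧
    ∃ j ≤ 2 * F.d, Even (j + S.card) ∧
      ∑ i ∈ (S.image c).filter (fun i => ¬ C.IsSS i), mult c S i ^ 2 ≤ lev j ^ 2

end

end Pool.Agent.J4.H5.EL
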