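import Mathlib

/-!
# Quadratic characters of the Galois group of `ℚ`, complex conjugation
-/

set_option autoImplicit false

namespace Pool.Agent.J4.H5.EL

open Module Polynomial

theorem normal_Qb : Normal ℚ (AlgebraicClosure ℚ) := by
  have h : @Normal ℚ (AlgebraicClosure ℚ) _ _ (AlgebraicClosure.instAlgebra ℚ) :=
    IsAlgClosure.normal _ _
  convert h
  exact Subsingleton.elim _ _

theorem eq_or_neg {D : ℤ} {δ : AlgebraicClosure ℚ} (hδ : δ ^ 2 = D)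
    (σ : AlgebraicClosure ℚ ≃ₐ[ℚ] AlgebraicClosure ℚ) : σ δ = δ ∨ σ δ = -δ := by
  have h1 : (σ δ) ^ 2 = δ ^ 2 := by
    rw [← map_pow, hδ, map_intCast]
  exact sq_eq_sq_iff_eq_or_eq_neg.1 h1

theorem exists_char (D : ℤ) (hD : D ≠ 0) (δ : AlgebraicClosure ℚ) (hδ : δ ^ 2 = D) :
    ∃ χ : (AlgebraicClosure ℚ ≃ₐ[ℚ] AlgebraicClosure ℚ) →* ℤˣ,
      ∀ σ : AlgebraicClosure ℚ ≃ₐ[ℚ] AlgebraicClosure ℚ,
        σ δ = (((χ σ : ℤˣ) : ℤ) : AlgebraicClosure ℚ) * δ := by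
  classical
  have hδ0 : δ ≠ 0 := by
    rintro rfl
    rw [zero_pow two_ne_zero] at hδ
    exact hD (Int.cast_eq_zero.1 hδ.symm)
  obtain ⟨f, hf⟩ : ∃ f : (AlgebraicClosure ℚ ≃ₐ[ℚ] AlgebraicClosure ℚ) → ℤˣ,
      ∀ σ, σ δ = (((f σ : ℤˣ) : ℤ) : AlgebraicClosure ℚ) * δ := by
    have : ∀ σ : AlgebraicClosure ℚ ≃ₐ[ℚ] AlgebraicClosure ℚ, ∃ e : ℤˣ,
        σ δ = (((e : ℤˣ) : ℤ) : AlgebraicClosure ℚ) * δ := by
      intro σ
      rcases eq_or_neg hδ σ with h | h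
      · exact ⟨1, by rw [h]; simp⟩
      · exact ⟨-1, by rw [h]; simp⟩
    choose f hf using this
    exact ⟨f, hf⟩
  have huniq : ∀ a b : ℤˣ, ((a : ℤ) : AlgebraicClosure ℚ) * δ = ((b : ℤ) : AlgebraicClosure ℚ) * δ →
      a = b := fun a b h => Units.ext (Int.cast_injective (mul_right_cancel₀ hδ0 h))
  refine ⟨{ toFun := f, map_one' := ?_, map_mul' := ?_ }, hf⟩
  · apply huniq
    rw [← hf]
    simp
  · intro σ τ
    apply huniq
    rw [← hf, AlgEquiv.mul_apply, hf τ, map_mul, hf σ, map_intCast, Units.val_mul, Int.cast_mul]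
    ring

theorem exists_ne (D D' : ℤ) (h : ¬ IsSquare (D * D')) (δ δ' : AlgebraicClosure ℚ)
    (hδ : δ ^ 2 = D) (hδ' : δ' ^ 2 = D') :
    ∃ σ : AlgebraicClosure ℚ ≃ₐ[ℚ] AlgebraicClosure ℚ,
      (σ δ = δ ∧ σ δ' = - δ') ∨ (σ δ = - δ ∧ σ δ' = δ') := by
  have hirr : Irreducible (X ^ 2 - C ((D * D' : ℤ) : ℚ)) := by
    apply X_pow_sub_C_irreducible_of_prime Nat.prime_two
    intro b hb
    apply h
    rw [← Rat.isSquare_intCast_iff]
    exact ⟨b, by rw [← hb]; ring⟩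
  have hmon : (X ^ 2 - C ((D * D' : ℤ) : ℚ)).Monic := monic_X_pow_sub_C _ two_ne_zero
  have hsq : (δ * δ') ^ 2 = ((D * D' : ℤ) : AlgebraicClosure ℚ) := by
    rw [mul_pow, hδ, hδ', Int.cast_mul]
  have h1 : X ^ 2 - C ((D * D' : ℤ) : ℚ) = minpoly ℚ (δ * δ') := by
    apply minpoly.eq_of_irreducible_of_monic hirr _ hmon
    rw [map_sub, map_pow, aeval_X, aeval_C, hsq, map_intCast, sub_self]
  have h2 : X ^ 2 - C ((D * D' : ℤ) : ℚ) = minpoly ℚ (-(δ * δ')) := by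
    apply minpoly.eq_of_irreducible_of_monic hirr _ hmon
    rw [map_sub, map_pow, aeval_X, aeval_C, neg_sq, hsq, map_intCast, sub_self]
  have h3 : IsConjRoot ℚ (δ * δ') (-(δ * δ')) := by
    unfold IsConjRoot
    rw [← h1, ← h2]
  have := normal_Qb
  obtain ⟨σ, hσ⟩ := isConjRoot_iff_exists_algEquiv.1 h3
  have hne : δ * δ' ≠ 0 := by
    intro h0
    rw [h0, zero_pow two_ne_zero] at hsq
    apply h
    rw [Int.cast_eq_zero.1 hsq.symm]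
    exact ⟨0, by simp⟩
  have key : ∃ σ : AlgebraicClosure ℚ ≃ₐ[ℚ] AlgebraicClosure ℚ, σ (δ * δ') = -(δ * δ') := by
    refine ⟨σ, ?_⟩
    rw [map_neg] at hσ
    rw [← neg_neg (σ (δ * δ')), hσ]
  obtain ⟨σ, hσ⟩ := key
  refine ⟨σ, ?_⟩
  have h2ne : δ * δ' ≠ -(δ * δ') := by
    intro h5
    exact hne (self_eq_neg.1 h5)
  rcases eq_or_neg hδ σ with h4 | h4 <;> rcases eq_or_neg hδ' σ with h5 | h5
  · exfalso
    rw [map_mul, h4, h5] at hσ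
    exact h2ne hσ
  · exact Or.inl ⟨h4, h5⟩
  · exact Or.inr ⟨h4, h5⟩
  · exfalso
    rw [map_mul, h4, h5, neg_mul_neg] at hσ
    exact h2ne hσ

theorem exists_conj (ρ : AlgebraicClosure ℚ →+* ℂ) :
    ∃ c : AlgebraicClosure ℚ ≃ₐ[ℚ] AlgebraicClosure ℚ, ∀ x, ρ (c x) = (starRingEnd ℂ) (ρ x) := by
  have := normal_Qb
  let _ : Algebra (AlgebraicClosure ℚ) ℂ := ρ.toAlgebra
  have : IsScalarTower ℚ (AlgebraicClosure ℚ) ℂ := by
    apply IsScalarTower.of_algebraMap_eq'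
    exact Subsingleton.elim _ _
  refine ⟨(Complex.conjAe.restrictScalars ℚ).restrictNormal (AlgebraicClosure ℚ), fun x => ?_⟩
  exact AlgEquiv.restrictNormal_commutes (Complex.conjAe.restrictScalars ℚ) (AlgebraicClosure ℚ) x

end Pool.Agent.J4.H5.EL
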