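import Mathlib

/-!
# Linear combinations of quadratic characters in translation invariant spaces
-/

set_option autoImplicit false

namespace Pool.Agent.J4.H5.EL

open Module

theorem mem_aux {G : Type*} [Group G] (W : Submodule ℝ (G → ℝ))
    (hW : ∀ f ∈ W, ∀ τ : G, (fun σ => f (σ * τ)) ∈ W) {r : Type*} [Fintype r] (χ : r → G →* ℤˣ)
    (hχ : Function.Injective χ) (i : r) (n : ℕ) : ∀ k : r → ℝ,
    (Finset.univ.filter fun j => k j ≠ 0).card = n →
    (fun σ : G => ∑ i, k i * (((χ i σ : ℤˣ) : ℤ) : ℝ)) ∈ W → k i ≠ 0 →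
    (fun σ : G => (((χ i σ : ℤˣ) : ℤ) : ℝ)) ∈ W := by
  classical
  induction n using Nat.strong_induction_on with
  | _ n ih =>
    intro k hn h hi
    by_cases hj : ∃ j, j ≠ i ∧ k j ≠ 0
    · obtain ⟨j, hji, hj⟩ := hj
      obtain ⟨τ, hτ⟩ : ∃ τ, χ i τ ≠ χ j τ := by
        by_contra hcon
        push Not at hcon
        exact hji (hχ (MonoidHom.ext fun τ => (hcon τ).symm))
      have hne : (((χ i τ : ℤˣ) : ℤ) : ℝ) ≠ (((χ j τ : ℤˣ) : ℤ) : ℝ) := fun h =>
        hτ (Units.ext (Int.cast_injective h))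
      obtain ⟨k', hk'⟩ : ∃ k' : r → ℝ, ∀ l, k' l = k l * ((((χ l τ : ℤˣ) : ℤ) : ℝ) -
        (((χ j τ : ℤˣ) : ℤ) : ℝ)) := ⟨_, fun _ => rfl⟩
      refine ih (Finset.univ.filter fun l => k' l ≠ 0).card ?_ k' rfl ?_ ?_
      · rw [← hn]
        apply Finset.card_lt_card
        rw [Finset.ssubset_iff_of_subset]
        · refine ⟨j, by simp [hj], ?_⟩
          simp [hk']
        · intro l hl
          simp only [Finset.mem_filter, Finset.mem_univ, true_and] at hl ⊢
          intro h0
          apply hl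
          rw [hk', h0, zero_mul]
      · have h1 := W.sub_mem (hW _ h τ) (W.smul_mem (((χ j τ : ℤˣ) : ℤ) : ℝ) h)
        convert h1 using 1
        funext σ
        simp only [Pi.sub_apply, Pi.smul_apply, smul_eq_mul, Finset.mul_sum,
          ← Finset.sum_sub_distrib]
        refine Finset.sum_congr rfl fun l _ => ?_
        rw [hk', map_mul, Units.val_mul, Int.cast_mul]
        ring
      · rw [hk']
        exact mul_ne_zero hi (sub_ne_zero.2 hne)
    · push Not at hj
      have h1 := W.smul_mem (k i)⁻¹ h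
      convert h1 using 1
      funext σ
      simp only [Pi.smul_apply, smul_eq_mul]
      rw [Finset.sum_eq_single i (fun j _ hji => by rw [hj j hji, zero_mul])
        (fun h => absurd (Finset.mem_univ i) h), ← mul_assoc, inv_mul_cancel₀ hi, one_mul]

theorem mem_of_comb {G : Type*} [Group G] (W : Submodule ℝ (G → ℝ))
    (hW : ∀ f ∈ W, ∀ τ : G, (fun σ => f (σ * τ)) ∈ W) {r : Type*} [Fintype r] (χ : r → G →* ℤˣ)
    (hχ : Function.Injective χ) (k : r → ℝ)
    (h : (fun σ : G => ∑ i, k i * (((χ i σ : ℤˣ) : ℤ) : ℝ)) ∈ W) (i : r) (hi : k i ≠ 0) :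
    (fun σ : G => (((χ i σ : ℤˣ) : ℤ) : ℝ)) ∈ W :=
  mem_aux W hW χ hχ i _ k rfl h hi

theorem card_le {G : Type*} [Group G] (W : Submodule ℝ (G → ℝ)) [Module.Finite ℝ W] {ι : Type*}
    (χ : ι → G →* ℤˣ) (B : Finset ι) (hχ : Set.InjOn χ B)
    (h : ∀ i ∈ B, (fun σ : G => (((χ i σ : ℤˣ) : ℤ) : ℝ)) ∈ W) : B.card ≤ finrank ℝ W := by
  classical
  let ψ : B → (G →* ℝ) := fun i =>
    ((Int.castRingHom ℝ).toMonoidHom.comp (Units.coeHom ℤ)).comp (χ i)
  have hψ : Function.Injective ψ := by
    intro i j hij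
    apply Subtype.ext
    apply hχ i.2 j.2
    apply MonoidHom.ext
    intro g
    have h1 : ((((χ i g : ℤˣ) : ℤ) : ℝ)) = (((χ j g : ℤˣ) : ℤ) : ℝ) := DFunLike.congr_fun hij g
    exact Units.ext (Int.cast_injective h1)
  have h1 : LinearIndependent ℝ (fun i : B => (ψ i : G → ℝ)) :=
    (linearIndependent_monoidHom G ℝ).comp ψ hψ
  have h2 : LinearIndependent ℝ (fun i : B => (⟨fun σ : G => (((χ i σ : ℤˣ) : ℤ) : ℝ),
      h i i.2⟩ : W)) := by
    apply LinearIndependent.of_comp W.subtype
    exact h1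
  have h3 := h2.fintype_card_le_finrank
  rwa [Fintype.card_coe] at h3

theorem half_aux {V A : Type*} [AddCommGroup V] [Module ℝ V] [DecidableEq A] (f : A → V) (u : A → A)
    (n : ℕ) : ∀ T : Finset A, T.card = n → (∀ a ∈ T, u a ∈ T) → (∀ a ∈ T, u (u a) = a) →
    (∀ a ∈ T, u a ≠ a) → (∀ a ∈ T, f (u a) = - f a) →
    ∃ R : Finset A, 2 * R.card ≤ T.card ∧ ∀ a ∈ T, f a ∈ Submodule.span ℝ (f '' R) := by
  induction n using Nat.strong_induction_on with
  | _ n ih =>
    intro T hn hu huu hne hf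
    rcases T.eq_empty_or_nonempty with rfl | ⟨a, ha⟩
    · exact ⟨∅, by simp, by simp⟩
    · obtain ⟨T', hT'⟩ : ∃ T', T' = (T.erase a).erase (u a) := ⟨_, rfl⟩
      have hua : u a ∈ T.erase a := Finset.mem_erase.2 ⟨hne a ha, hu a ha⟩
      have hc : T'.card + 2 = T.card := by
        rw [hT', Finset.card_erase_of_mem hua, Finset.card_erase_of_mem ha]
        have h1 : 1 ≤ (T.erase a).card := Finset.card_pos.2 ⟨_, hua⟩
        rw [Finset.card_erase_of_mem ha] at h1
        omega
      have hm : ∀ b, b ∈ T' ↔ b ≠ u a ∧ b ≠ a ∧ b ∈ T := by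
        intro b
        rw [hT', Finset.mem_erase, Finset.mem_erase]
      obtain ⟨R, hR, hR2⟩ := ih T'.card (by omega) T' rfl
        (by
          intro b hb
          obtain ⟨h1, h2, h3⟩ := (hm b).1 hb
          refine (hm _).2 ⟨?_, ?_, hu b h3⟩
          · intro h4
            apply h2
            rw [← huu b h3, h4, huu a ha]
          · intro h4
            apply h1
            rw [← huu b h3, h4])
        (fun b hb => huu b ((hm b).1 hb).2.2) (fun b hb => hne b ((hm b).1 hb).2.2)
        (fun b hb => hf b ((hm b).1 hb).2.2)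
      refine ⟨insert a R, ?_, ?_⟩
      · have := Finset.card_insert_le a R
        omega
      · have ha2 : f a ∈ Submodule.span ℝ (f '' ((insert a R : Finset A) : Set A)) :=
          Submodule.subset_span ⟨a, by simp, rfl⟩
        intro b hb
        by_cases h1 : b = a
        · rw [h1]; exact ha2
        · by_cases h2 : b = u a
          · rw [h2, hf a ha]
            exact Submodule.neg_mem _ ha2
          · refine Submodule.span_mono ?_ (hR2 b ((hm b).2 ⟨h2, h1, hb⟩))
            apply Set.image_mono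
            intro x hx
            simp only [Finset.coe_insert, Set.mem_insert_iff, Finset.mem_coe]
            exact Or.inr hx

theorem half {V A : Type*} [AddCommGroup V] [Module ℝ V] [DecidableEq A] (f : A → V) (u : A → A)
    (T : Finset A) (hu : ∀ a ∈ T, u a ∈ T) (huu : ∀ a ∈ T, u (u a) = a) (hne : ∀ a ∈ T, u a ≠ a)
    (hf : ∀ a ∈ T, f (u a) = - f a) : 2 * finrank ℝ (Submodule.span ℝ (f '' T)) ≤ T.card := by
  classical
  obtain ⟨R, hR, hR2⟩ := half_aux f u _ T rfl hu huu hne hf
  have h1 : Submodule.span ℝ (f '' T) ≤ Submodule.span ℝ ((R.image f : Finset V) : Set V) := by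
    rw [Submodule.span_le]
    rintro _ ⟨a, ha, rfl⟩
    rw [Finset.coe_image]
    exact hR2 a ha
  have h2 : finrank ℝ (Submodule.span ℝ ((R.image f : Finset V) : Set V)) ≤ (R.image f).card :=
    finrank_span_finset_le_card _
  have h3 : (R.image f).card ≤ R.card := Finset.card_image_le
  have h4 := Submodule.finrank_mono h1
  omega

end Pool.Agent.J4.H5.EL
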