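import Mathlib

/-! Piece O of the project EL (helper44): orthogonality of distinct quadratic characters of a group. -/

set_option autoImplicit false

namespace Pool.Agent.J4.H5.EL

open Module

/-- the second moment of a combination of distinct quadratic characters -/
theorem sum_sq_le {G : Type*} [Group G] {r : Type*} [Fintype r] (χ : r → G →* ℤˣ)
    (hχ : Function.Injective χ) (k : r → ℤ) (m : ℤ)
    (h : ∀ g, |∑ i, k i * ((χ i g : ℤˣ) : ℤ)| ≤ m) : ∑ i, k i ^ 2 ≤ m ^ 2 := by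
  classical
  let P : G →* (r → ℤˣ) := MonoidHom.pi χ
  let Q := P.range
  haveI : Fintype Q := Fintype.ofFinite Q
  have hcard : (0 : ℤ) < Fintype.card Q := by exact_mod_cast Fintype.card_pos
  -- orthogonality
  have horth : ∀ i j, i ≠ j → ∑ q : Q, (((q : r → ℤˣ) i : ℤˣ) : ℤ) * (((q : r → ℤˣ) j : ℤˣ) : ℤ) = 0 := by
    intro i j hij
    have hne : χ i ≠ χ j := fun e => hij (hχ e)
    obtain ⟨g, hg⟩ : ∃ g, χ i g ≠ χ j g := by
      by_contra hcon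
      push Not at hcon
      exact hne (MonoidHom.ext hcon)
    let q0 : Q := ⟨P g, ⟨g, rfl⟩⟩
    have hneg : (((q0 : r → ℤˣ) i : ℤˣ) : ℤ) * (((q0 : r → ℤˣ) j : ℤˣ) : ℤ) = -1 := by
      show ((χ i g : ℤˣ) : ℤ) * ((χ j g : ℤˣ) : ℤ) = -1
      rcases Int.units_eq_one_or (χ i g) with h1 | h1 <;> rcases Int.units_eq_one_or (χ j g) with h2 | h2
      · exact absurd (h1.trans h2.symm) hg
      · rw [h1, h2]; simp
      · rw [h1, h2]; simp
      · exact absurd (h1.trans h2.symm) hg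
    have hinv : ∑ q : Q, (((q : r → ℤˣ) i : ℤˣ) : ℤ) * (((q : r → ℤˣ) j : ℤˣ) : ℤ)
        = ∑ q : Q, ((((q0 * q : Q) : r → ℤˣ) i : ℤˣ) : ℤ) * ((((q0 * q : Q) : r → ℤˣ) j : ℤˣ) : ℤ) :=
      (Equiv.sum_comp (Equiv.mulLeft q0)
        (fun q : Q => (((q : r → ℤˣ) i : ℤˣ) : ℤ) * (((q : r → ℤˣ) j : ℤˣ) : ℤ))).symm
    have hmul : ∀ q : Q, ((((q0 * q : Q) : r → ℤˣ) i : ℤˣ) : ℤ) * ((((q0 * q : Q) : r → ℤˣ) j : ℤˣ) : ℤ)
        = -((((q : r → ℤˣ) i : ℤˣ) : ℤ) * (((q : r → ℤˣ) j : ℤˣ) : ℤ)) := by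
      intro q
      have e : ((((q0 * q : Q) : r → ℤˣ) i : ℤˣ) : ℤ) * ((((q0 * q : Q) : r → ℤˣ) j : ℤˣ) : ℤ)
          = ((((q0 : r → ℤˣ) i : ℤˣ) : ℤ) * (((q0 : r → ℤˣ) j : ℤˣ) : ℤ))
            * ((((q : r → ℤˣ) i : ℤˣ) : ℤ) * (((q : r → ℤˣ) j : ℤˣ) : ℤ)) := by
        simp only [Subgroup.coe_mul, Pi.mul_apply, Units.val_mul]
        ring
      rw [e, hneg]
      ring
    rw [Finset.sum_congr rfl (fun q _ => hmul q), Finset.sum_neg_distrib] at hinv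
    linarith
  have hdiag : ∀ i, ∑ q : Q, (((q : r → ℤˣ) i : ℤˣ) : ℤ) * (((q : r → ℤˣ) i : ℤˣ) : ℤ) = Fintype.card Q := by
    intro i
    have : ∀ q : Q, (((q : r → ℤˣ) i : ℤˣ) : ℤ) * (((q : r → ℤˣ) i : ℤˣ) : ℤ) = 1 := by
      intro q
      rcases Int.units_eq_one_or ((q : r → ℤˣ) i) with h1 | h1 <;> rw [h1] <;> simp
    rw [Finset.sum_congr rfl (fun q _ => this q)]
    simp
  have hsq : ∑ q : Q, (∑ i, k i * (((q : r → ℤˣ) i : ℤˣ) : ℤ)) ^ 2 = (Fintype.card Q : ℤ) * ∑ i, k i ^ 2 := by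
    have e1 : ∀ q : Q, (∑ i, k i * (((q : r → ℤˣ) i : ℤˣ) : ℤ)) ^ 2
        = ∑ i, ∑ j, (k i * k j) * ((((q : r → ℤˣ) i : ℤˣ) : ℤ) * (((q : r → ℤˣ) j : ℤˣ) : ℤ)) := by
      intro q
      rw [sq, Finset.sum_mul_sum]
      refine Finset.sum_congr rfl fun i _ => Finset.sum_congr rfl fun j _ => ?_
      ring
    rw [Finset.sum_congr rfl (fun q _ => e1 q), Finset.sum_comm, Finset.mul_sum]
    refine Finset.sum_congr rfl fun i _ => ?_
    rw [Finset.sum_comm, Finset.sum_eq_single i]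
    · rw [← Finset.mul_sum, hdiag i]
      ring
    · intro j _ hj
      rw [← Finset.mul_sum, horth i j (fun e => hj e.symm), mul_zero]
    · intro hi
      exact absurd (Finset.mem_univ i) hi
  have hle : ∑ q : Q, (∑ i, k i * (((q : r → ℤˣ) i : ℤˣ) : ℤ)) ^ 2 ≤ (Fintype.card Q : ℤ) * m ^ 2 := by
    have : ∀ q ∈ (Finset.univ : Finset Q), (∑ i, k i * (((q : r → ℤˣ) i : ℤˣ) : ℤ)) ^ 2 ≤ m ^ 2 := by
      intro q _
      obtain ⟨g, hg⟩ := q.2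
      have e : (∑ i, k i * (((q : r → ℤˣ) i : ℤˣ) : ℤ)) = ∑ i, k i * ((χ i g : ℤˣ) : ℤ) := by
        rw [← hg]
        rfl
      rw [e]
      exact sq_le_sq' (abs_le.mp (h g)).1 (abs_le.mp (h g)).2
    calc _ ≤ ∑ _q : Q, m ^ 2 := Finset.sum_le_sum this
      _ = _ := by rw [Finset.sum_const, nsmul_eq_mul, Finset.card_univ]
  rw [hsq] at hle
  exact le_of_mul_le_mul_left hle hcard

end Pool.Agent.J4.H5.EL
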