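import Mathlib

/-! Piece V of the project EL (helper44): an ultrametric absolute value on the algebraic numbers. -/

set_option autoImplicit false

namespace Pool.Agent.J4.H5.EL

open Module

/-- integers have absolute value at most one, integers prime to `p` have absolute value one -/
theorem val_int (p : ℕ) [Fact p.Prime] (w : AbsoluteValue (AlgebraicClosure ℚ) ℝ)
    (hw : ∀ x y, w (x + y) ≤ max (w x) (w y)) (hp : w p < 1) (a : ℤ) :
    w a ≤ 1 ∧ (¬ (p : ℤ) ∣ a → w a = 1) := by
  have hnat : ∀ n : ℕ, w (n : AlgebraicClosure ℚ) ≤ 1 := by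
    intro n
    induction n with
    | zero => simp
    | succ n ih =>
      push_cast
      refine (hw _ _).trans ?_
      rw [map_one]
      exact max_le ih le_rfl
  have hint : ∀ b : ℤ, w (b : AlgebraicClosure ℚ) ≤ 1 := by
    intro b
    rcases Int.eq_nat_or_neg b with ⟨n, hn | hn⟩
    · rw [hn]
      push_cast
      exact hnat n
    · rw [hn]
      push_cast
      rw [AbsoluteValue.map_neg]
      exact hnat n
  refine ⟨hint a, fun hd => ?_⟩
  have hpp : Prime (p : ℤ) := Nat.prime_iff_prime_int.mp (Fact.out : p.Prime)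
  have hcop : IsCoprime (p : ℤ) a := (Prime.coprime_iff_not_dvd hpp).mpr hd
  obtain ⟨u, v, huv⟩ := hcop
  by_contra hne
  have hlt : w (a : AlgebraicClosure ℚ) < 1 := lt_of_le_of_ne (hint a) hne
  have h1 : w ((u : AlgebraicClosure ℚ) * (p : AlgebraicClosure ℚ) + (v : AlgebraicClosure ℚ) * (a : AlgebraicClosure ℚ)) < 1 := by
    refine (hw _ _).trans_lt (max_lt ?_ ?_)
    · rw [map_mul]
      calc w (u : AlgebraicClosure ℚ) * w (p : AlgebraicClosure ℚ)
          ≤ 1 * w (p : AlgebraicClosure ℚ) := mul_le_mul_of_nonneg_right (hint u) (w.nonneg _)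
        _ < 1 := by rw [one_mul]; exact hp
    · rw [map_mul]
      calc w (v : AlgebraicClosure ℚ) * w (a : AlgebraicClosure ℚ)
          ≤ 1 * w (a : AlgebraicClosure ℚ) := mul_le_mul_of_nonneg_right (hint v) (w.nonneg _)
        _ < 1 := by rw [one_mul]; exact hlt
  have h2 : ((u : AlgebraicClosure ℚ) * (p : AlgebraicClosure ℚ) + (v : AlgebraicClosure ℚ) * (a : AlgebraicClosure ℚ)) = 1 := by
    have := congrArg (fun z : ℤ => (z : AlgebraicClosure ℚ)) huv
    push_cast at this
    exact this
  rw [h2, map_one] at h1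
  exact lt_irrefl _ h1

/-- the two roots of `X^2 - a X + q`, `p ∤ a`, `q` a power of `p`: one of them is a unit -/
theorem val_root (p : ℕ) [Fact p.Prime] (w : AbsoluteValue (AlgebraicClosure ℚ) ℝ)
    (hw : ∀ x y, w (x + y) ≤ max (w x) (w y)) (hp : w p < 1) (a : ℤ) (ha : ¬ (p : ℤ) ∣ a) (e : ℕ)
    (he : 0 < e) (x y : AlgebraicClosure ℚ) (hs : x + y = a) (hm : x * y = (p : AlgebraicClosure ℚ) ^ e) :
    (w x = 1 ∧ w y = w p ^ e) ∨ (w x = w p ^ e ∧ w y = 1) := by
  have ha1 : w (a : AlgebraicClosure ℚ) = 1 := (val_int p w hw hp a).2 ha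
  have hprod : w x * w y = w p ^ e := by rw [← map_mul, hm, map_pow]
  have hlt : w (p : AlgebraicClosure ℚ) ^ e < 1 := pow_lt_one₀ (w.nonneg _) hp he.ne'
  -- if the absolute values differ, the larger one is `1`
  have key : ∀ s t : AlgebraicClosure ℚ, s + t = a → w t < w s → w s = 1 := by
    intro s t hst hlt'
    apply le_antisymm
    · -- s = a - t
      have hs' : s = (a : AlgebraicClosure ℚ) + (-t) := by rw [← hst]; ring
      have h1 : w s ≤ max (w (a : AlgebraicClosure ℚ)) (w (-t)) := by
        conv_lhs => rw [hs']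
        exact hw _ _
      rw [AbsoluteValue.map_neg, ha1] at h1
      rcases le_max_iff.mp h1 with h | h
      · exact h
      · exact absurd h (not_le.mpr hlt')
    · have h1 : w (a : AlgebraicClosure ℚ) ≤ max (w s) (w t) := by
        rw [← hst]
        exact hw _ _
      rw [ha1, max_eq_left hlt'.le] at h1
      exact h1
  rcases lt_trichotomy (w x) (w y) with h | h | h
  · right
    have hy : w y = 1 := key y x (by rw [add_comm]; exact hs) h
    refine ⟨?_, hy⟩
    rw [hy, mul_one] at hprod
    exact hprod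
  · exfalso
    have h1 : w (a : AlgebraicClosure ℚ) ≤ max (w x) (w y) := by
      rw [← hs]
      exact hw _ _
    rw [ha1, h, max_self] at h1
    rw [h] at hprod
    have : 1 ≤ w y * w y := by nlinarith
    linarith
  · left
    have hx : w x = 1 := key x y hs h
    refine ⟨hx, ?_⟩
    rw [hx, one_mul] at hprod
    exact hprod

end Pool.Agent.J4.H5.EL
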