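import Pool.Agent.J4.H5.EL.Defs
import Pool.Agent.J4.H5.EL.Gal
import Pool.Agent.J4.H5.EL.Mem
import Pool.Agent.J4.H5.EL.Orth
import Pool.Agent.J4.H5.EL.Val

/-!
# Project EL: slopes of the eigenvalues of Frobenius
-/

set_option autoImplicit false

open Polynomial

namespace Pool.Agent.J4.H5.EL

/-- the normalised valuation -/
noncomputable def val (p : ℕ) (w : AbsoluteValue Qb ℝ) (x : Qb) : ℝ :=
  Real.log (w x) / Real.log (w p)

variable {p : ℕ} [hp : Fact p.Prime] {w : AbsoluteValue Qb ℝ} (hw : IsPadic p w)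

include hw

lemma wp_pos : 0 < w p := by
  apply w.pos
  exact_mod_cast hp.out.ne_zero

lemma logp_neg : Real.log (w p) < 0 := Real.log_neg (wp_pos hw) hw.lt_one

lemma val_mul {x y : Qb} (hx : x ≠ 0) (hy : y ≠ 0) : val p w (x * y) = val p w x + val p w y := by
  unfold val
  rw [map_mul, Real.log_mul (w.ne_zero hx) (w.ne_zero hy), add_div]

omit hw in
lemma val_one : val p w 1 = 0 := by
  unfold val
  rw [map_one, Real.log_one, zero_div]

omit hw in
lemma val_pow (x : Qb) (n : ℕ) : val p w (x ^ n) = n * val p w x := by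
  unfold val
  rw [map_pow, Real.log_pow, mul_div_assoc]

lemma val_p : val p w (p : Qb) = 1 := div_self (logp_neg hw).ne

lemma val_p_pow (n : ℕ) : val p w ((p : Qb) ^ n) = n := by rw [val_pow, val_p hw, mul_one]

lemma val_prod {κ : Type*} (S : Finset κ) (x : κ → Qb) (hx : ∀ k ∈ S, x k ≠ 0) :
    val p w (∏ k ∈ S, x k) = ∑ k ∈ S, val p w (x k) := by
  classical
  induction S using Finset.induction_on with
  | empty => rw [Finset.prod_empty, Finset.sum_empty, val_one]
  | insert a S ha ih =>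
    rw [Finset.prod_insert ha, Finset.sum_insert ha, val_mul hw (hx a (Finset.mem_insert_self a S))
      (Finset.prod_ne_zero_iff.2 fun k hk => hx k (Finset.mem_insert_of_mem hk)),
      ih fun k hk => hx k (Finset.mem_insert_of_mem hk)]

variable {ι : Type*} (C : Curves p ι)

omit hw in
lemma root_ne (i : ι) (b : Bool) : C.root i b ≠ 0 := by
  have h := C.mul i
  have h2 : (p : Qb) ^ C.e i ≠ 0 := pow_ne_zero _ (by exact_mod_cast hp.out.ne_zero)
  cases b
  · intro h0
    rw [h0, mul_zero] at h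
    exact h2 h.symm
  · intro h0
    rw [h0, zero_mul] at h
    exact h2 h.symm

omit hw in
lemma disc_ne {i : ι} (hi : ¬ C.IsSS i) : C.a i ^ 2 - 4 * (p : ℤ) ^ C.e i ≠ 0 := by
  intro h
  apply hi
  have h1 : C.a i ^ 2 = 4 * (p : ℤ) ^ C.e i := by linarith
  have h2 : (p : ℤ) ∣ C.a i ^ 2 := by
    rw [h1]
    exact Dvd.dvd.mul_left (dvd_pow_self _ (C.e_pos i).ne') 4
  exact (Nat.prime_iff_prime_int.1 hp.out).dvd_of_dvd_pow h2

omit hw in
lemma delta_sq (i : ι) : (C.root i true - C.root i false) ^ 2 =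
    ((C.a i ^ 2 - 4 * (p : ℤ) ^ C.e i : ℤ) : Qb) := by
  push_cast
  rw [← C.add i, ← C.mul i]
  ring

open Classical in
/-- the Galois character of an ordinary curve -/
noncomputable def chi (i : ι) : GQ →* ℤˣ :=
  if hi : C.IsSS i then 1 else (exists_char _ (disc_ne C hi) _ (delta_sq C i)).choose

omit hw in
lemma chi_spec {i : ι} (hi : ¬ C.IsSS i) (σ : GQ) :
    σ (C.root i true - C.root i false) =
      (((chi C i σ : ℤˣ) : ℤ) : Qb) * (C.root i true - C.root i false) := by
  unfold chi
  rw [dif_neg hi]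
  exact (exists_char _ (disc_ne C hi) _ (delta_sq C i)).choose_spec σ

omit hw in
lemma sigma_root {i : ι} (hi : ¬ C.IsSS i) (σ : GQ) (b : Bool) :
    (chi C i σ = 1 ∧ σ (C.root i b) = C.root i b) ∨
      (chi C i σ = -1 ∧ σ (C.root i b) = C.root i (!b)) := by
  have h1 := chi_spec C hi σ
  have h2 : σ (C.root i true) + σ (C.root i false) = C.root i true + C.root i false := by
    rw [← map_add, C.add i]
    exact map_intCast σ _
  rw [map_sub] at h1
  rcases Int.units_eq_one_or (chi C i σ) with h | h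
  · left
    refine ⟨h, ?_⟩
    rw [h] at h1
    push_cast at h1
    rw [one_mul] at h1
    cases b
    · linear_combination (h2 - h1) / 2
    · linear_combination (h2 + h1) / 2
  · right
    refine ⟨h, ?_⟩
    rw [h] at h1
    push_cast at h1
    cases b
    · simp only [Bool.not_false]
      linear_combination (h2 - h1) / 2
    · simp only [Bool.not_true]
      linear_combination (h2 + h1) / 2

omit hw in
lemma chi_injOn {i j : ι} (hi : ¬ C.IsSS i) (hj : ¬ C.IsSS j) (h : chi C i = chi C j) : i = j := by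
  by_contra hne
  obtain ⟨σ, hσ⟩ := exists_ne _ _ (C.fields i j hne hi hj) _ _ (delta_sq C i) (delta_sq C j)
  have h1 := chi_spec C hi σ
  have h2 := chi_spec C hj σ
  rw [h] at h1
  have hdi : C.root i true - C.root i false ≠ 0 := by
    intro h0
    have := delta_sq C i
    rw [h0] at this
    apply disc_ne C hi
    have h3 : ((C.a i ^ 2 - 4 * (p : ℤ) ^ C.e i : ℤ) : Qb) = 0 := by rw [← this]; ring
    exact_mod_cast h3
  have hdj : C.root j true - C.root j false ≠ 0 := by
    intro h0
    have := delta_sq C j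
    rw [h0] at this
    apply disc_ne C hj
    have h3 : ((C.a j ^ 2 - 4 * (p : ℤ) ^ C.e j : ℤ) : Qb) = 0 := by rw [← this]; ring
    exact_mod_cast h3
  have key : ∀ x : Qb, x ≠ 0 → x ≠ -x := by
    intro x hx h0
    apply hx
    have : (2 : Qb) * x = 0 := by linear_combination h0
    simpa using this
  rcases Int.units_eq_one_or (chi C j σ) with h3 | h3
  · rw [h3] at h1 h2
    push_cast at h1 h2
    rw [one_mul] at h1 h2
    rcases hσ with ⟨-, h4⟩ | ⟨h4, -⟩
    · exact key _ hdj (h2.symm.trans h4)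
    · exact key _ hdi (h1.symm.trans h4)
  · rw [h3] at h1 h2
    push_cast at h1 h2
    rw [neg_one_mul] at h1 h2
    rcases hσ with ⟨h4, -⟩ | ⟨-, h4⟩
    · exact key _ hdi (h4.symm.trans h1)
    · exact key _ hdj (h4.symm.trans h2)

open Classical in
/-- the sign of an eigenvalue of an ordinary curve -/
noncomputable def eta (w : AbsoluteValue Qb ℝ) (i : ι) (b : Bool) : ℤ :=
  if w (C.root i b) = 1 then -1 else 1

lemma eta_spec {i : ι} (hi : ¬ C.IsSS i) (b : Bool) :
    2 * val p w (C.root i b) = C.e i * (1 + (eta C w i b : ℝ)) ∧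
      eta C w i (!b) = - eta C w i b ∧ eta C w i b ^ 2 = 1 := by
  have hlt : w p ^ C.e i < 1 := pow_lt_one₀ (wp_pos hw).le hw.lt_one (C.e_pos i).ne'
  have h0 : ∀ b, (w (C.root i b) = 1 ∧ w (C.root i (!b)) = w p ^ C.e i) ∨
      (w (C.root i b) = w p ^ C.e i ∧ w (C.root i (!b)) = 1) := by
    intro b
    have h1 := val_root p w hw.ultra hw.lt_one (C.a i) hi (C.e i) (C.e_pos i) _ _ (C.add i)
      (C.mul i)
    cases b
    · simp only [Bool.not_false]
      tauto
    · simp only [Bool.not_true]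
      tauto
  unfold eta
  rcases h0 b with ⟨h1, h2⟩ | ⟨h1, h2⟩
  · have h3 : ¬ w (C.root i (!b)) = 1 := by rw [h2]; exact hlt.ne
    rw [if_pos h1, if_neg h3]
    refine ⟨?_, by norm_num, by norm_num⟩
    unfold val
    rw [h1, Real.log_one]
    push_cast
    ring
  · have h3 : ¬ w (C.root i b) = 1 := by rw [h1]; exact hlt.ne
    rw [if_pos h2, if_neg h3]
    refine ⟨?_, by norm_num, by norm_num⟩
    unfold val
    rw [h1, Real.log_pow]
    have := (logp_neg hw).ne
    push_cast
    field_simp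
    ring

/-- the slope of a conjugate of an eigenvalue of an ordinary curve -/
lemma val_sigma {i : ι} (hi : ¬ C.IsSS i) (σ : GQ) (b : Bool) :
    2 * val p w (σ (C.root i b)) =
      C.e i * (1 + (eta C w i b : ℝ) * (((chi C i σ : ℤˣ) : ℤ) : ℝ)) := by
  obtain ⟨h1, h2, -⟩ := eta_spec hw C hi b
  rcases sigma_root C hi σ b with ⟨h3, h4⟩ | ⟨h3, h4⟩
  · rw [h4, h3, h1]
    push_cast
    ring
  · rw [h4, h3, (eta_spec hw C hi (!b)).1, h2]
    push_cast
    ring

/-- the slope of a conjugate of an eigenvalue of a supersingular curve -/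
lemma val_sigma_ss {i : ι} (hi : C.IsSS i) (σ : GQ) (b : Bool) :
    2 * val p w (σ (C.root i b)) = C.e i := by
  obtain ⟨n, hn, h⟩ := C.supersingular i hi
  have h1 : (σ (C.root i b)) ^ (2 * n) = (p : Qb) ^ (C.e i * n) := by
    rw [← map_pow, h b, map_pow, map_natCast]
  have h2 := congrArg (val p w) h1
  rw [val_pow, val_p_pow hw] at h2
  push_cast at h2
  have hn' : (0 : ℝ) < n := by exact_mod_cast hn
  have h3 : (n : ℝ) * (2 * val p w (σ (C.root i b)) - C.e i) = 0 := by linarith
  rcases mul_eq_zero.1 h3 with h4 | h4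
  · exact absurd h4 hn'.ne'
  · linarith

end Pool.Agent.J4.H5.EL
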